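import Mathlib

set_option autoImplicit false

open Filter Topology Set

namespace Pool.Agent.Helper49.OCA

/-- sign functions on `ι` -/
abbrev SF (ι : Type) := ι → SignType

/-- restriction of a sign function to a set -/
noncomputable def rs {ι : Type} (A : Set ι) (s : SF ι) : SF ι :=
  fun j => by classical exact if j ∈ A then s j else 0

lemma rs_mem {ι : Type} {A : Set ι} {s : SF ι} {j : ι} (h : j ∈ A) : rs A s j = s j := by
  unfold rs; simp [h]

lemma rs_nmem {ι : Type} {A : Set ι} {s : SF ι} {j : ι} (h : j ∉ A) : rs A s j = 0 := by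
  unfold rs; simp [h]

/-- a stable system -/
structure Stab {ι : Type} (L : SF ι → ℕ → ℝ) : Prop where
  add : ∀ s g u : SF ι, (∀ j, ((u j : ℤ)) = (s j : ℤ) + (g j : ℤ)) →
    Tendsto (fun i => L u i - L s i - L g i) atTop (𝓝 0)
  fin : ∀ s : SF ι, {j | s j ≠ 0}.Finite → Tendsto (L s) atTop (𝓝 0)
  upper : ∀ r : ℝ, 1 < r → ∀ s : SF ι, ∀ᶠ i in atTop, L s i < r
  lower : ∀ r : ℝ, r < 1 → ∀ A : Set ι, A.Infinite →
    ∃ s : SF ι, (∀ j, j ∉ A → s j = 0) ∧ ∃ᶠ i in atTop, r ≤ L s i

variable {ι : Type} {L : SF ι → ℕ → ℝ}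

lemma Stab.zero (h : Stab L) : Tendsto (L (fun _ => 0)) atTop (𝓝 0) :=
  h.fin _ (by simp)

lemma Stab.neg (h : Stab L) (s : SF ι) :
    Tendsto (fun i => L (fun j => - s j) i + L s i) atTop (𝓝 0) := by
  have h1 := h.add s (fun j => - s j) (fun _ => 0) (by intro j; cases s j <;> simp <;> decide)
  have h2 := h.zero.sub h1
  refine (h2.congr ?_).trans (by simp)
  intro i
  ring

/-- disjointly supported addition -/
lemma Stab.add_disj (h : Stab L) (s g u : SF ι) (hu : ∀ j, (u j = s j ∧ g j = 0) ∨ (u j = g j ∧ s j = 0)) :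
    Tendsto (fun i => L u i - L s i - L g i) atTop (𝓝 0) := by
  apply h.add
  intro j
  rcases hu j with ⟨h1, h2⟩ | ⟨h1, h2⟩
  · rw [h1, h2]; simp
  · rw [h1, h2]; simp

/-- domination: if `s` nearly attains the norm on `R` then everything disjoint from `s` is small
on `R`. -/
lemma Stab.dom (h : Stab L) (s g : SF ι) (hd : ∀ j, s j = 0 ∨ g j = 0) (η η' : ℝ) (hη : η < η')
    (R : Set ℕ) (hR : ∀ᶠ i in atTop, i ∈ R → 1 - η ≤ L s i) :
    ∀ᶠ i in atTop, i ∈ R → |L g i| ≤ η' := by
  classical
  set δ := (η' - η) / 4 with hδ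
  have hδ0 : 0 < δ := by rw [hδ]; linarith
  have key : ∀ g : SF ι, (∀ j, s j = 0 ∨ g j = 0) → ∀ᶠ i in atTop, i ∈ R → L g i ≤ η + 2 * δ := by
    intro g hg
    let u : SF ι := fun j => if s j = 0 then g j else s j
    have hu : ∀ j, (u j = s j ∧ g j = 0) ∨ (u j = g j ∧ s j = 0) := by
      intro j
      by_cases hs : s j = 0
      · right; exact ⟨by simp [u, hs], hs⟩
      · left; exact ⟨by simp [u, hs], (hg j).resolve_left hs⟩
    have h1 := h.add_disj s g u hu
    have h2 := h.upper (1 + δ) (by linarith) u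
    have h3 : ∀ᶠ i in atTop, -δ < L u i - L s i - L g i :=
      h1.eventually (lt_mem_nhds (by linarith))
    filter_upwards [h2, h3, hR] with i a1 a2 a3 hi
    have := a3 hi
    linarith
  have k1 := key g hd
  have k2 := key (fun j => - g j) (by
    intro j
    rcases hd j with h1 | h1
    · left; exact h1
    · right; simp [h1])
  have h4 := h.neg g
  have h5 : ∀ᶠ i in atTop, L (fun j => - g j) i + L g i > -δ :=
    h4.eventually (lt_mem_nhds (by linarith))
  filter_upwards [k1, k2, h5] with i a1 a2 a3 hi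
  have b1 := a1 hi
  have b2 := a2 hi
  rw [abs_le]
  constructor <;> linarith

/-- restriction along an injection -/
noncomputable def ext {κ ι : Type} (e : κ → ι) (y : SF κ) : SF ι := Function.extend e y 0

lemma ext_apply {κ ι : Type} {e : κ → ι} (he : Function.Injective e) (y : SF κ) (k : κ) :
    ext e y (e k) = y k := he.extend_apply _ _ _

lemma ext_apply' {κ ι : Type} {e : κ → ι} (y : SF κ) (j : ι) (h : ¬ ∃ k, e k = j) :
    ext e y j = 0 := Function.extend_apply' _ _ _ h

lemma Stab.comp {κ : Type} (h : Stab L) (e : κ → ι) (he : Function.Injective e) :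
    Stab (fun y : SF κ => L (ext e y)) where
  add := by
    intro s g u hu
    apply h.add
    intro j
    by_cases hj : ∃ k, e k = j
    · obtain ⟨k, rfl⟩ := hj
      rw [ext_apply he, ext_apply he, ext_apply he]
      exact hu k
    · rw [ext_apply' _ _ hj, ext_apply' _ _ hj, ext_apply' _ _ hj]
      simp
  fin := by
    intro s hs
    apply h.fin
    refine (hs.image e).subset ?_
    intro j hj
    by_cases hj' : ∃ k, e k = j
    · obtain ⟨k, rfl⟩ := hj'
      refine ⟨k, ?_, rfl⟩
      simpa [ext_apply he] using hj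
    · exact absurd (ext_apply' _ _ hj') hj
  upper := fun r hr s => h.upper r hr _
  lower := by
    intro r hr A hA
    obtain ⟨s, hs, hf⟩ := h.lower r hr (e '' A) (hA.image he.injOn)
    refine ⟨fun k => s (e k), ?_, ?_⟩
    · intro k hk
      apply hs
      rintro ⟨k', hk', h2⟩
      exact hk (he h2 ▸ hk')
    · have : ext e (fun k => s (e k)) = s := by
        funext j
        by_cases hj : ∃ k, e k = j
        · obtain ⟨k, rfl⟩ := hj
          rw [ext_apply he]
        · rw [ext_apply' _ _ hj]
          symm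
          apply hs
          rintro ⟨k, _, hk⟩
          exact hj ⟨k, hk⟩
      rw [this]
      exact hf

end Pool.Agent.Helper49.OCA
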