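import Pool.Agent.Helper49.OCA.Iterate

set_option autoImplicit false

open Filter Topology Set

namespace Pool.Agent.Helper49.OCA

structure Blk (Lm Psi : SF ℕ → ℕ → ℝ) (β : ℕ → ℝ) (R : Set ℕ) (s : SF ℕ) (θ' : ℝ) : Prop where
  hL : Stab Lm
  pos : 0 < θ'
  loc : ∀ (y : SF ℕ) (i : ℕ), ∃ m : ℕ, ∀ y' : SF ℕ, (∀ n < m, y' n = y n) → Psi y' i = Psi y i
  app : ∀ y : SF ℕ, ∀ᶠ i in atTop, i ∈ R → |Psi y i - Lm y i - β i| ≤ θ'
  inf : R.Infinite
  peak : ∀ i ∈ R, 9 / 10 ≤ Lm s i

variable {Lm Psi : SF ℕ → ℕ → ℝ} {β : ℕ → ℝ} {R : Set ℕ} {s : SF ℕ} {θ' : ℝ}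

lemma Stab.fin_change {L : SF ℕ → ℕ → ℝ} (hL : Stab L) (y y' : SF ℕ) (h : {n | y n ≠ y' n}.Finite) :
    Tendsto (fun i => L y i - L y' i) atTop (𝓝 0) := by
  set A : Set ℕ := {n | y n ≠ y' n} with hA
  have key : ∀ v : SF ℕ, Tendsto (fun i => L v i - L (rs Aᶜ v) i) atTop (𝓝 0) := by
    intro v
    have h1 := hL.add_disj (rs Aᶜ v) (rs A v) v (by
      intro j
      by_cases hj : j ∈ A
      · right; exact ⟨(rs_mem hj).symm, rs_nmem (by simpa using hj)⟩
      · left; exact ⟨(rs_mem (A := Aᶜ) hj).symm, rs_nmem hj⟩)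
    have h2 : Tendsto (L (rs A v)) atTop (𝓝 0) := by
      apply hL.fin
      refine h.subset ?_
      intro j hj
      by_contra hjA
      exact hj (rs_nmem hjA)
    have h3 := h1.add h2
    simp only [add_zero] at h3
    refine h3.congr ?_
    intro i
    ring
  have he : rs Aᶜ y = rs Aᶜ y' := by
    funext j
    by_cases hj : j ∈ A
    · rw [rs_nmem (by simpa using hj), rs_nmem (by simpa using hj)]
    · rw [rs_mem (A := Aᶜ) hj, rs_mem (A := Aᶜ) hj]
      by_contra hne
      exact hj hne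
  have h4 := (key y).sub (key y')
  rw [he, sub_zero] at h4
  refine h4.congr ?_
  intro i
  ring

lemma Blk.kappa (H : Blk Lm Psi β R s θ') : ∃ κ : ℕ → ℕ, ∀ (i : ℕ) (y y' : SF ℕ),
    (∀ n < κ i, y n = y' n) → Psi y i = Psi y' i := by
  have : ∀ i, ∃ κ : ℕ, ∀ (y y' : SF ℕ), (∀ n < κ, y n = y' n) → Psi y i = Psi y' i := by
    intro i
    choose m hm using fun y => H.loc y i
    obtain ⟨t, ht⟩ := CompactSpace.elim_nhds_subcover
      (fun y : SF ℕ => {y' : SF ℕ | ∀ n < m y, y' n = y n})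
      (fun y => (isOpen_agree y (m y)).mem_nhds (fun _ _ => rfl))
    refine ⟨t.sup m, fun y y' hyy' => ?_⟩
    have hy : y ∈ ⋃ x ∈ t, {y' : SF ℕ | ∀ n < m x, y' n = x n} := by rw [ht]; trivial
    simp only [mem_iUnion] at hy
    obtain ⟨x, hx, hyx⟩ := hy
    rw [hm x y hyx, hm x y']
    intro n hn
    rw [← hyy' n (lt_of_lt_of_le hn (Finset.le_sup (f := m) hx))]
    exact hyx n hn
  choose κ hκ using this
  exact ⟨κ, fun i => hκ i⟩

lemma Blk.buffer (H : Blk Lm Psi β R s θ') (m : ℕ) : ∃ (m' : ℕ) (w : SF ℕ) (j : ℕ), m < m' ∧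
    ∀ y y' : SF ℕ, (∀ n, m ≤ n → y n = y' n) → (∀ n, m ≤ n → n < m' → y n = w n) →
      ∀ i ≥ j, i ∈ R → |Psi y i - Psi y' i| ≤ 6 * θ' := by
  classical
  let sh : SF ℕ → SF ℕ := fun z n => if n < m then 0 else z (n - m)
  have hsh : ∀ z n, m ≤ n → sh z n = z (n - m) := by
    intro z n hn
    simp only [sh]
    rw [if_neg (by omega)]
  let C : ℕ → Set (SF ℕ) := fun j => {z | ∀ y' : SF ℕ, (∀ n, m ≤ n → y' n = z (n - m)) →
    ∀ i ≥ j, i ∈ R → |Psi (sh z) i - Psi y' i| ≤ 3 * θ'}
  have hCcl : ∀ j, IsClosed (C j) := by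
    intro j
    rw [← isOpen_compl_iff, isOpen_iff_forall_mem_open]
    intro z hz
    simp only [C, mem_compl_iff, mem_ofPred_eq] at hz
    push Not at hz
    obtain ⟨y', hy', i, hi, hiR, hlt⟩ := hz
    obtain ⟨m1, hm1⟩ := H.loc (sh z) i
    obtain ⟨m2, hm2⟩ := H.loc y' i
    refine ⟨{u' : SF ℕ | ∀ n < max m1 m2, u' n = z n}, ?_, isOpen_agree _ _, fun n _ => rfl⟩
    intro u' hu' hmem
    have e1 := hm1 (sh u') (by
      intro n hn
      simp only [sh]
      split_ifs with h
      · rfl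
      · exact hu' (n - m) (lt_of_le_of_lt (Nat.sub_le n m) (lt_of_lt_of_le hn (le_max_left _ _))))
    have e2 := hm2 (fun n => if n < m then y' n else u' (n - m)) (by
      intro n hn
      by_cases h : n < m
      · simp only [if_pos h]
      · simp only [if_neg h]
        rw [hy' n (by omega)]
        exact hu' (n - m) (lt_of_le_of_lt (Nat.sub_le n m) (lt_of_lt_of_le hn (le_max_right _ _))))
    have h3 := hmem (fun n => if n < m then y' n else u' (n - m)) (by
      intro n hn
      have : ¬ n < m := by omega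
      simp only [if_neg this]) i hi hiR
    rw [e1, e2] at h3
    exact absurd h3 (not_le.mpr hlt)
  have hCcov : (⋃ j, C j) = univ := by
    rw [eq_univ_iff_forall]
    intro z
    rw [mem_iUnion]
    let yv : (Fin m → SignType) → SF ℕ := fun v n => if h : n < m then v ⟨n, h⟩ else z (n - m)
    have h1 : ∀ v : Fin m → SignType, ∀ᶠ i in atTop, i ∈ R → |Psi (sh z) i - Psi (yv v) i| ≤ 3 * θ' := by
      intro v
      have a1 := H.app (sh z)
      have a2 := H.app (yv v)
      have a3 := H.hL.fin_change (sh z) (yv v) (by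
        refine (finite_Iio m).subset ?_
        intro n hn
        by_contra hnm
        apply hn
        have : ¬ n < m := hnm
        simp only [sh, yv]
        rw [if_neg this, dif_neg this])
      have a4 : ∀ᶠ i in atTop, |Lm (sh z) i - Lm (yv v) i| < θ' :=
        ((tendsto_zero_iff_abs_tendsto_zero _).mp a3).eventually (gt_mem_nhds H.pos)
      filter_upwards [a1, a2, a4] with i b1 b2 b3 hi
      have b1 := b1 hi
      have b2 := b2 hi
      rw [abs_le] at b1 b2 ⊢
      rw [abs_lt] at b3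
      constructor <;> linarith [b1.1, b1.2, b2.1, b2.2, b3.1, b3.2]
    have h2 := Filter.eventually_all.mpr h1
    obtain ⟨j, hj⟩ := eventually_atTop.mp h2
    refine ⟨j, fun y' hy' i hi hiR => ?_⟩
    have : y' = yv (fun n => y' n) := by
      funext n
      simp only [yv]
      split_ifs with h
      · rfl
      · exact hy' n (by omega)
    rw [this]
    exact hj i hi (fun n => y' n) hiR
  obtain ⟨j, hint⟩ := nonempty_interior_of_iUnion_of_closed hCcl hCcov
  obtain ⟨z0, hz0⟩ := hint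
  obtain ⟨M, hM⟩ := exists_agree_of_open isOpen_interior hz0
  refine ⟨m + M + 1, sh z0, j, by omega, ?_⟩
  intro y y' hyy' hyw i hi hiR
  have hz : (fun n => y (n + m)) ∈ C j := by
    apply interior_subset
    apply hM
    intro n hn
    rw [hyw (n + m) (by omega) (by omega), hsh z0 (n + m) (by omega)]
    congr 1
    omega
  have h1 := hz y (by
    intro n hn
    simp only
    congr 1
    omega) i hi hiR
  have h2 := hz y' (by
    intro n hn
    simp only
    rw [← hyy' n hn]
    congr 1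
    omega) i hi hiR
  rw [abs_le] at h1 h2 ⊢
  constructor <;> linarith [h1.1, h1.2, h2.1, h2.2]

theorem Blk.blocks (H : Blk Lm Psi β R s θ') :
    ∃ (v : SF ℕ) (a r : ℕ → ℕ) (c : ℕ → ℝ), StrictMono r ∧
      (∀ m, {n | v n ≠ 0 ∧ a n = m}.Finite) ∧ (∀ m, 44 / 100 ≤ c m) ∧
      ∀ ε : SF ℕ, ∀ᶠ m in atTop, |Lm (fun n => v n * ε (a n)) (r m) - (ε m : ℝ) * c m| ≤ 10 * θ' := by
  classical
  obtain ⟨κ, hκ⟩ := H.kappa
  choose m' w j hm' hbuf using H.buffer
  -- the intervals
  let nn : ℕ → ℕ := fun k => Nat.rec 0 (fun _ x => m' x) k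
  have hnn0 : nn 0 = 0 := rfl
  have hnn : ∀ k, nn (k + 1) = m' (nn k) := fun k => rfl
  have hmono : StrictMono nn := strictMono_nat_of_lt_succ (fun k => by rw [hnn]; exact hm' _)
  have hge : ∀ k, k ≤ nn k := fun k => hmono.le_apply
  have hexi : ∀ n, ∃ k, n < nn (k + 1) := fun n =>
    ⟨n, lt_of_lt_of_le (Nat.lt_succ_self n) (hge (n + 1))⟩
  let idx : ℕ → ℕ := fun n => Nat.find (hexi n)
  have hidx2 : ∀ n, n < nn (idx n + 1) := fun n => Nat.find_spec (hexi n)
  have hidx1 : ∀ n, nn (idx n) ≤ n := by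
    intro n
    rcases Nat.eq_zero_or_pos (idx n) with h | h
    · rw [h, hnn0]; exact Nat.zero_le _
    · have h1 := Nat.find_min (hexi n) (m := idx n - 1) (by
        show idx n - 1 < idx n
        omega)
      have h2 : idx n - 1 + 1 = idx n := by omega
      rw [h2] at h1
      omega
  have hidxu : ∀ n k, nn k ≤ n → n < nn (k + 1) → idx n = k := by
    intro n k h1 h2
    have h3 : idx n ≤ k := Nat.find_min' _ h2
    by_contra hne
    have h4 : idx n + 1 ≤ k := by omega
    have h5 := hmono.monotone h4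
    have h6 := hidx2 n
    omega
  -- choose the parity
  obtain ⟨p, hp2, hpf⟩ : ∃ p, p < 2 ∧ ∃ᶠ i in atTop, i ∈ R ∧
      44 / 100 ≤ Lm (rs {n | idx n % 2 = p} s) i := by
    have h1 := H.hL.add_disj (rs {n | idx n % 2 = 0} s) (rs {n | idx n % 2 = 1} s) s (by
      intro n
      by_cases hn : idx n % 2 = 0
      · left
        exact ⟨(rs_mem (A := {n | idx n % 2 = 0}) hn).symm, rs_nmem (by simp; omega)⟩
      · right
        have hn1 : idx n % 2 = 1 := by omega
        exact ⟨(rs_mem (A := {n | idx n % 2 = 1}) hn1).symm, rs_nmem (by simp; omega)⟩)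
    have h2 : ∀ᶠ i in atTop, Lm s i - Lm (rs {n | idx n % 2 = 0} s) i -
        Lm (rs {n | idx n % 2 = 1} s) i < 1 / 100 := h1.eventually (gt_mem_nhds (by norm_num))
    have h3 : ∃ᶠ i in atTop, i ∈ R := Nat.frequently_atTop_iff_infinite.mpr H.inf
    have h4 : ∃ᶠ i in atTop, (i ∈ R ∧ 44 / 100 ≤ Lm (rs {n | idx n % 2 = 0} s) i) ∨
        (i ∈ R ∧ 44 / 100 ≤ Lm (rs {n | idx n % 2 = 1} s) i) := by
      refine (h3.and_eventually h2).mono ?_
      rintro i ⟨hiR, hi⟩
      have := H.peak i hiR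
      by_cases h : 44 / 100 ≤ Lm (rs {n | idx n % 2 = 0} s) i
      · left; exact ⟨hiR, h⟩
      · right
        push Not at h
        exact ⟨hiR, by linarith⟩
    rcases Filter.frequently_or_distrib.mp h4 with h | h
    · exact ⟨0, by norm_num, h⟩
    · exact ⟨1, by norm_num, h⟩
  set Fr : Set ℕ := {n | idx n % 2 = p} with hFr
  set σ : SF ℕ := rs Fr s with hσ
  let pat : SF ℕ := fun n => w (nn (idx n)) n
  let hat : SF ℕ → SF ℕ := fun y n => if n ∈ Fr then y n else pat n
  have hat_free : ∀ y n, n ∈ Fr → hat y n = y n := by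
    intro y n hn
    simp only [hat]
    rw [if_pos hn]
  have hat_nfree : ∀ y n, n ∉ Fr → hat y n = pat n := by
    intro y n hn
    simp only [hat]
    rw [if_neg hn]
  -- key inequality
  have keyE : ∀ k, k % 2 ≠ p → ∀ y y' : SF ℕ, (∀ n, nn (k + 1) ≤ n → hat y n = hat y' n) →
      ∀ i ≥ j (nn k), i ∈ R → |Psi (hat y) i - Psi (hat y') i| ≤ 6 * θ' := by
    intro k hk y y' hyy' i hi hiR
    have hbl : ∀ (y : SF ℕ) n, nn k ≤ n → n < nn (k + 1) → hat y n = w (nn k) n := by
      intro y n h1 h2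
      have h3 := hidxu n k h1 h2
      rw [hat_nfree y n (by simp only [hFr, mem_ofPred_eq, h3]; exact hk)]
      simp only [pat, h3]
    apply hbuf (nn k) (hat y) (hat y') _ _ i hi hiR
    · intro n hn
      by_cases h : n < nn (k + 1)
      · rw [hbl y n hn h, hbl y' n hn h]
      · exact hyy' n (by omega)
    · intro n h1 h2
      exact hbl y n h1 (by rw [hnn]; exact h2)
  -- the recursion
  have hR' : {i | i ∈ R ∧ 44 / 100 ≤ Lm σ i}.Infinite := Nat.frequently_atTop_iff_infinite.mp hpf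
  have hnext : ∀ N : ℕ, ∃ i, (i ∈ R ∧ 44 / 100 ≤ Lm σ i) ∧ N < i := by
    intro N
    obtain ⟨i, hi, hNi⟩ := hR'.exists_gt N
    exact ⟨i, hi, hNi⟩
  choose nx hnx1 hnx2 using hnext
  -- state: (k, lower bound for the next row)
  let rr : ℕ × ℕ → ℕ := fun q => nx (max (j (nn q.1)) q.2)
  let st : ℕ → ℕ × ℕ := fun m => Nat.rec (1 - p, 0) (fun _ q => (q.1 + 2 * κ (rr q) + 2, rr q)) m
  have hst : ∀ m, st (m + 1) = ((st m).1 + 2 * κ (rr (st m)) + 2, rr (st m)) := fun m => rfl
  let K : ℕ → ℕ := fun m => (st m).1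
  let r : ℕ → ℕ := fun m => rr (st m)
  have hK0 : K 0 = 1 - p := rfl
  have hK : ∀ m, K (m + 1) = K m + 2 * κ (r m) + 2 := fun m => rfl
  have hKp : ∀ m, K m % 2 ≠ p := by
    intro m
    induction m with
    | zero => rw [hK0]; omega
    | succ m ih => rw [hK]; omega
  have hKmono : StrictMono K := strictMono_nat_of_lt_succ (fun m => by rw [hK]; omega)
  have hr1 : ∀ m, r m ∈ R ∧ 44 / 100 ≤ Lm σ (r m) := fun m => hnx1 _
  have hr2 : ∀ m, j (nn (K m)) < r m := fun m => lt_of_le_of_lt (le_max_left _ _) (hnx2 _)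
  have hr3 : ∀ m, r m < r (m + 1) := by
    intro m
    have : r (m + 1) = nx (max (j (nn (K (m + 1)))) (r m)) := rfl
    rw [this]
    exact lt_of_le_of_lt (le_max_right _ _) (hnx2 _)
  have hrmono : StrictMono r := strictMono_nat_of_lt_succ hr3
  have hκr : ∀ m, κ (r m) ≤ nn (K (m + 1)) := by
    intro m
    have h1 := hge (K (m + 1))
    have h2 := hK m
    omega
  let Win : ℕ → Set ℕ := fun m => {n | n ∈ Fr ∧ nn (K m + 1) ≤ n ∧ n < nn (K (m + 1))}
  have hWinu : ∀ m m2 n, n ∈ Win m → n ∈ Win m2 → m = m2 := by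
    have aux : ∀ m m2 n, n ∈ Win m → n ∈ Win m2 → ¬ m < m2 := by
      intro m m2 n h1 h2 hlt
      have h3 : K (m + 1) ≤ K m2 := hKmono.monotone hlt
      have h4 := hmono.monotone (h3.trans (Nat.le_add_right (K m2) 1))
      have h5 := h1.2.2
      have h6 := h2.2.1
      omega
    intro m m2 n h1 h2
    have := aux m m2 n h1 h2
    have := aux m2 m n h2 h1
    omega
  let a : ℕ → ℕ := fun n => if h : ∃ m, n ∈ Win m then Nat.find h else 0
  have ha : ∀ m n, n ∈ Win m → a n = m := by
    intro m n hn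
    have hex : ∃ m, n ∈ Win m := ⟨m, hn⟩
    have : a n = Nat.find hex := by simp only [a]; rw [dif_pos hex]
    rw [this]
    exact hWinu _ _ n (Nat.find_spec hex) hn
  let v : SF ℕ := fun n => if ∃ m, n ∈ Win m then s n else 0
  have hv : ∀ m n, n ∈ Win m → v n = s n := by
    intro m n hn
    simp only [v]
    rw [if_pos ⟨m, hn⟩]
  have hvF : ∀ n, n ∉ Fr → v n = 0 := by
    intro n hn
    simp only [v]
    rw [if_neg]
    rintro ⟨m, hm⟩
    exact hn hm.1
  refine ⟨v, a, r, fun m => Lm σ (r m), hrmono, ?_, fun m => (hr1 m).2, ?_⟩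
  · intro m
    refine (finite_Iio (nn (K (m + 1)))).subset ?_
    rintro n ⟨hn1, hn2⟩
    have hex : ∃ m, n ∈ Win m := by
      by_contra h
      apply hn1
      simp only [v]
      rw [if_neg h]
    obtain ⟨m2, hm2⟩ := hex
    have : m2 = m := by rw [← ha m2 n hm2, hn2]
    subst this
    exact hm2.2.2
  · intro ε
    set u : SF ℕ := fun n => v n * ε (a n) with hu
    -- agreement on a window
    have keyG : ∀ m, ∀ y y' : SF ℕ, (∀ n ∈ Win m, y n = y' n) →
        |Psi (hat y) (r m) - Psi (hat y') (r m)| ≤ 6 * θ' := by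
      intro m y y' hyy'
      let y1 : SF ℕ := fun n => if n < nn (K (m + 1)) then y n else y' n
      have e1 : Psi (hat y) (r m) = Psi (hat y1) (r m) := by
        apply hκ
        intro n hn
        have hn2 : n < nn (K (m + 1)) := lt_of_lt_of_le hn (hκr m)
        by_cases hF : n ∈ Fr
        · rw [hat_free _ _ hF, hat_free _ _ hF]
          simp only [y1]
          rw [if_pos hn2]
        · rw [hat_nfree _ _ hF, hat_nfree _ _ hF]
      rw [e1]
      apply keyE (K m) (hKp m) y1 y' _ (r m) (hr2 m).le (hr1 m).1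
      intro n hn
      by_cases hF : n ∈ Fr
      · rw [hat_free _ _ hF, hat_free _ _ hF]
        simp only [y1]
        split_ifs with h
        · exact hyy' n ⟨hF, hn, h⟩
        · rfl
      · rw [hat_nfree _ _ hF, hat_nfree _ _ hF]
    -- decomposition
    have hdec : ∀ y : SF ℕ, (∀ n, n ∉ Fr → y n = 0) →
        Tendsto (fun i => Lm (hat y) i - Lm y i - Lm (hat (fun _ => 0)) i) atTop (𝓝 0) := by
      intro y hy
      apply H.hL.add_disj
      intro n
      by_cases hF : n ∈ Fr
      · left; exact ⟨hat_free y n hF, hat_free (fun _ => 0) n hF⟩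
      · right; exact ⟨by rw [hat_nfree y n hF, hat_nfree (fun _ => 0) n hF], hy n hF⟩
    have huF : ∀ n, n ∉ Fr → u n = 0 := by
      intro n hn
      simp only [hu]
      rw [hvF n hn, zero_mul]
    have hσF : ∀ n, n ∉ Fr → σ n = 0 := fun n hn => rs_nmem hn
    -- for each sign τ
    have main : ∀ τ : SignType, ∀ᶠ m in atTop, ε m = τ →
        |Lm u (r m) - (τ : ℝ) * Lm σ (r m)| ≤ 10 * θ' := by
      intro τ
      set στ : SF ℕ := fun n => σ n * τ with hστ
      have hστF : ∀ n, n ∉ Fr → στ n = 0 := by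
        intro n hn
        simp only [hστ]
        rw [hσF n hn, zero_mul]
      have hlin : Tendsto (fun i => Lm στ i - (τ : ℝ) * Lm σ i) atTop (𝓝 0) := by
        cases τ with
        | zero =>
          have e : στ = fun _ => 0 := by
            funext n
            simp [hστ]
          rw [e]
          simpa using H.hL.zero
        | neg =>
          have e : στ = fun n => - σ n := by
            funext n
            simp [hστ]
          rw [e]
          simpa using H.hL.neg σ
        | pos =>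
          have e : στ = σ := by
            funext n
            simp [hστ]
          rw [e]
          simp
      have hpos := H.pos
      have E1 : ∀ᶠ i in atTop, |Lm στ i - (τ : ℝ) * Lm σ i| < θ' / 2 :=
        ((tendsto_zero_iff_abs_tendsto_zero _).mp hlin).eventually (gt_mem_nhds (by linarith))
      have E2 : ∀ᶠ i in atTop, |Lm (hat u) i - Lm u i - Lm (hat (fun _ => 0)) i| < θ' / 2 :=
        ((tendsto_zero_iff_abs_tendsto_zero _).mp (hdec u huF)).eventually
          (gt_mem_nhds (by linarith))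
      have E3 : ∀ᶠ i in atTop, |Lm (hat στ) i - Lm στ i - Lm (hat (fun _ => 0)) i| < θ' / 2 :=
        ((tendsto_zero_iff_abs_tendsto_zero _).mp (hdec στ hστF)).eventually
          (gt_mem_nhds (by linarith))
      have E4 := H.app (hat u)
      have E5 := H.app (hat στ)
      have E := hrmono.tendsto_atTop.eventually (E1.and (E2.and (E3.and (E4.and E5))))
      filter_upwards [E] with m hm hτ
      obtain ⟨b1, b2, b3, b4, b5⟩ := hm
      have b4 := b4 (hr1 m).1
      have b5 := b5 (hr1 m).1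
      have b6 := keyG m u στ (by
        intro n hn
        simp only [hu, hστ]
        rw [hv m n hn, ha m n hn, hτ, hσ, rs_mem hn.1])
      rw [abs_lt] at b1 b2 b3
      rw [abs_le] at b4 b5 b6 ⊢
      constructor <;> linarith [b1.1, b1.2, b2.1, b2.2, b3.1, b3.2, b4.1, b4.2, b5.1, b5.2,
        b6.1, b6.2]
    have h2 := Filter.eventually_all.mpr main
    filter_upwards [h2] with m hm
    exact hm (ε m) rfl

end Pool.Agent.Helper49.OCA
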