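import Pool.Agent.Helper49.OCA.Color

set_option autoImplicit false

open Filter Topology Set

namespace Pool.Agent.Helper49.OCA

variable {L : SF Tr → ℕ → ℝ}

lemma not_countable_bool : ¬ (univ : Set (ℕ → Bool)).Countable := by
  intro h
  have : Countable (ℕ → Bool) := Set.countable_univ_iff.mp h
  obtain ⟨f, hf⟩ := exists_surjective_nat (ℕ → Bool)
  obtain ⟨n, hn⟩ := hf (fun k => !(f k k))
  have := congrFun hn n
  simp at this


def VB {η : ℝ} (D Z : Set (PP' L η)) (i : ℕ) (x : ℕ → Bool) : Set (SF ℕ) :=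
  {y | ∃ z ∈ Z, z.1.1 = x ∧ z.1.2.1 = y ∧ z.1.2.2.1 i = true ∧
    ∀ z' ∈ D, z'.1.1 ≠ x → z'.1.2.2.1 i = true → ¬ Compat x y z'.1.1 z'.1.2.1}

def BB {η : ℝ} (D Z : Set (PP' L η)) (i : ℕ) (c : Σ m : ℕ, (Fin m → SignType)) :
    Set (ℕ → Bool) :=
  {x | ∀ y1 : SF ℕ, (∀ n (hn : n < c.1), y1 n = c.2 ⟨n, hn⟩) → ∀ m1 : ℕ,
    ∃ y ∈ VB D Z i x, ∀ n < m1, y n = y1 n}

/-- points of `Z` are approximated by points of the dense set `D` -/
lemma approx {η : ℝ} (D Z : Set (PP' L η)) (hD : Z ⊆ closure D) (z : PP' L η) (hz : z ∈ Z)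
    (m i : ℕ) : ∃ z' ∈ D, (∀ n < m, z'.1.1 n = z.1.1 n) ∧ (∀ n < m, z'.1.2.1 n = z.1.2.1 n) ∧
      z'.1.2.2.1 i = z.1.2.2.1 i := by
  have hc := hD hz
  rw [mem_closure_iff] at hc
  have c1 : ∀ d : ℕ, Continuous (fun p : PP' L η => p.1.1 d) := fun d => by fun_prop
  have c3 : ∀ d : ℕ, Continuous (fun p : PP' L η => p.1.2.1 d) := fun d => by fun_prop
  have c5 : ∀ d : ℕ, Continuous (fun p : PP' L η => p.1.2.2.1 d) := fun d => by fun_prop
  let U : Set (PP' L η) := (⋂ n ∈ Finset.range m, (fun p : PP' L η => p.1.1 n) ⁻¹' {z.1.1 n}) ∩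
    (⋂ n ∈ Finset.range m, (fun p : PP' L η => p.1.2.1 n) ⁻¹' {z.1.2.1 n}) ∩
    ((fun p : PP' L η => p.1.2.2.1 i) ⁻¹' {z.1.2.2.1 i})
  have hU : IsOpen U := by
    refine ((isOpen_biInter_finset fun n _ => ?_).inter (isOpen_biInter_finset fun n _ => ?_)).inter
      ?_
    · exact (isOpen_discrete _).preimage (c1 n)
    · exact (isOpen_discrete _).preimage (c3 n)
    · exact (isOpen_discrete _).preimage (c5 i)
  have hzU : z ∈ U := by
    simp [U]
  obtain ⟨z', hz'U, hz'D⟩ := hc U hU hzU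
  refine ⟨z', hz'D, ?_, ?_, ?_⟩
  · intro n hn
    have h1 := hz'U.1.1
    simp only [mem_iInter, Finset.mem_range] at h1
    exact h1 n hn
  · intro n hn
    have h1 := hz'U.1.2
    simp only [mem_iInter, Finset.mem_range] at h1
    exact h1 n hn
  · exact hz'U.2

lemma BB_subsingleton {η : ℝ} (D Z : Set (PP' L η)) (hD : Z ⊆ closure D) (i : ℕ)
    (c : Σ m : ℕ, (Fin m → SignType)) : (BB D Z i c).Subsingleton := by
  intro x hx x' hx'
  by_contra hne
  obtain ⟨d, hd⟩ := Function.ne_iff.mp hne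
  let y1 : SF ℕ := fun n => if h : n < c.1 then c.2 ⟨n, h⟩ else 0
  have hy1 : ∀ n (hn : n < c.1), y1 n = c.2 ⟨n, hn⟩ := by
    intro n hn
    simp only [y1]
    rw [dif_pos hn]
  obtain ⟨y, hy, hyn⟩ := hx y1 hy1 (d + 1)
  obtain ⟨y', hy', hyn'⟩ := hx' y1 hy1 (d + 1)
  obtain ⟨z, hz, rfl, rfl, hzi, hno⟩ := hy
  obtain ⟨z', hz', rfl, rfl, hzi', -⟩ := hy'
  obtain ⟨w, hwD, hw1, hw2, hw3⟩ := approx D Z hD z' hz' (d + 1) i
  apply hno w hwD
  · intro h
    apply hd
    rw [← h]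
    exact hw1 d (by omega)
  · rw [hw3]; exact hzi'
  · intro n hn
    by_cases hnd : n < d + 1
    · rw [hw2 n hnd, hyn n hnd, hyn' n hnd]
    · exfalso
      apply hd
      rw [hn d (by omega)]
      exact hw1 d (by omega)

theorem exists_branch (hO : OpenColoringAxiom) (hL : Stab L) (η : ℝ) (hη : 0 < η) :
    ∃ (x : ℕ → Bool) (T : ℕ → SF ℕ → ℕ → ℝ) (W : ℕ → Set (SF ℕ)),
      (∀ j, ∀ y : SF ℕ, ∀ m : ℕ, ∃ (y' : SF ℕ) (m' : ℕ), (∀ n < m, y' n = y n) ∧
        ∀ y'' : SF ℕ, (∀ n < m', y'' n = y' n) → y'' ∈ W j) ∧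
      (∀ y : SF ℕ, (∀ j, y ∈ W j) →
        (∀ k i, ∃ m : ℕ, ∀ y' : SF ℕ, (∀ n < m, y' n = y n) → T k y' i = T k y i) ∧
        (∀ t : SF ℕ, ∃ k, ∀ i, 1 - η ≤ L (ext (node x) t) i →
          |T k y i - L (ext (node x) y) i| ≤ 4 * η)) := by
  classical
  have : Countable (SignType) := Finite.to_countable
  -- apply the axiom
  obtain ⟨Z, hZu, hZ⟩ : ∃ Z : ℕ → Set (PP' L η), (⋃ n, Z n) = Set.univ ∧
      ∀ n, ∀ x ∈ Z n, ∀ y ∈ Z n, x ≠ y → (x, y) ∉ KK L η := by
    rcases hO (PP' L η) (KK L η) (KK_open η) (KK_symm η) with ⟨Y, hY, hYK⟩ | h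
    · exact absurd (no_uncountable hL η hη Y hYK) hY
    · exact h
  have hDex : ∀ k, ∃ D : Set (PP' L η), D.Countable ∧ D ⊆ Z k ∧ Z k ⊆ closure D := by
    intro k
    obtain ⟨s, hs, hsd⟩ := TopologicalSpace.exists_countable_dense (Z k)
    refine ⟨Subtype.val '' s, hs.image _, ?_, ?_⟩
    · rintro _ ⟨a, _, rfl⟩
      exact a.2
    · intro z hz
      exact image_closure_subset_closure_image continuous_subtype_val ⟨⟨z, hz⟩, hsd _, rfl⟩
  choose D hDc hDZ hDcl using hDex
  -- choose the branch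
  obtain ⟨x, hx⟩ : ∃ x : ℕ → Bool, ∀ k i c, x ∉ BB (D k) (Z k) i c := by
    by_contra hcon
    push Not at hcon
    apply not_countable_bool
    have hcount : (⋃ k : ℕ, ⋃ i : ℕ, ⋃ c : (Σ m : ℕ, (Fin m → SignType)),
        BB (D k) (Z k) i c).Countable :=
      countable_iUnion fun k => countable_iUnion fun i => countable_iUnion fun c =>
        (BB_subsingleton (D k) (Z k) (hDcl k) i c).countable
    refine hcount.mono ?_
    intro x _
    obtain ⟨k, i, c, h⟩ := hcon x
    simp only [mem_iUnion]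
    exact ⟨k, i, c, h⟩
  -- a point of the space over each triple
  let pt : SF ℕ → SF ℕ → PP' L η := fun y t =>
    ⟨(x, y, (fun i => decide (1 - η ≤ L (ext (node x) t) i)), L (ext (node x) y)),
      ⟨t, fun i => by simp⟩, rfl⟩
  have : Nonempty (PP' L η) := ⟨pt (fun _ => 0) (fun _ => 0)⟩
  have hfex : ∀ k, ∃ f : ℕ → PP' L η, D k ⊆ range f :=
    fun k => countable_iff_exists_subset_range.mp (hDc k)
  choose f hf using hfex
  let good : ℕ → ℕ → SF ℕ → ℕ → Prop := fun k i y n =>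
    f k n ∈ D k ∧ (f k n).1.1 ≠ x ∧ (f k n).1.2.2.1 i = true ∧
      Compat x y (f k n).1.1 (f k n).1.2.1
  have hgood_loc : ∀ k i n y, ∃ m : ℕ, ∀ y' : SF ℕ, (∀ l < m, y' l = y l) →
      (good k i y' n ↔ good k i y n) := by
    intro k i n y
    by_cases hne : (f k n).1.1 = x
    · refine ⟨0, fun y' _ => ?_⟩
      constructor
      · intro h; exact absurd hne h.2.1
      · intro h; exact absurd hne h.2.1
    · obtain ⟨d, hd⟩ := Function.ne_iff.mp hne
      refine ⟨d + 1, fun y' hy' => ?_⟩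
      have key : Compat x y' (f k n).1.1 (f k n).1.2.1 ↔ Compat x y (f k n).1.1 (f k n).1.2.1 := by
        constructor
        · intro h l hl
          by_cases hld : l < d + 1
          · rw [← hy' l hld]; exact h l hl
          · exact absurd (hl d (by omega)).symm hd
        · intro h l hl
          by_cases hld : l < d + 1
          · rw [hy' l hld]; exact h l hl
          · exact absurd (hl d (by omega)).symm hd
      simp only [good, key]
  let T : ℕ → SF ℕ → ℕ → ℝ := fun k y i =>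
    if h : ∃ n, good k i y n then (f k (Nat.find h)).1.2.2.2 i else 0
  -- the open dense sets
  let W1 : ℕ → ℕ → Set (SF ℕ) := fun k i => {y | ∃ m : ℕ, ∀ y' : SF ℕ, (∀ l < m, y' l = y l) →
    y' ∉ VB (D k) (Z k) i x}
  let W2 : ℕ → ℕ → Set (SF ℕ) := fun k i => {y | ∃ m : ℕ, ∀ y' : SF ℕ, (∀ l < m, y' l = y l) →
    T k y' i = T k y i}
  let W : ℕ → Set (SF ℕ) := fun j =>
    if j % 2 = 0 then W1 (Nat.unpair (j / 2)).1 (Nat.unpair (j / 2)).2
    else W2 (Nat.unpair (j / 2)).1 (Nat.unpair (j / 2)).2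
  -- density of W1
  have hd1 : ∀ k i, ∀ y : SF ℕ, ∀ m : ℕ, ∃ (y' : SF ℕ) (m' : ℕ), (∀ n < m, y' n = y n) ∧
        ∀ y'' : SF ℕ, (∀ n < m', y'' n = y' n) → y'' ∈ W1 k i := by
    intro k i y m
    have h1 := hx k i ⟨m, fun n => y n⟩
    simp only [BB, mem_ofPred_eq] at h1
    push Not at h1
    obtain ⟨y1, hy1, m1, h2⟩ := h1
    refine ⟨y1, m1, fun n hn => hy1 n hn, ?_⟩
    intro y'' hy''
    refine ⟨m1, fun y' hy' hV => ?_⟩
    obtain ⟨n, hn, hne⟩ := h2 y' hV
    exact hne ((hy' n hn).trans (hy'' n hn))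
  have hd2 : ∀ k i, ∀ y : SF ℕ, ∀ m : ℕ, ∃ (y' : SF ℕ) (m' : ℕ), (∀ n < m, y' n = y n) ∧
        ∀ y'' : SF ℕ, (∀ n < m', y'' n = y' n) → y'' ∈ W2 k i := by
    intro k i y m
    by_cases hex : ∃ y1 : SF ℕ, (∀ n < m, y1 n = y n) ∧ ∃ n, good k i y1 n
    · obtain ⟨y1, hy1, hg1⟩ := hex
      -- the truth values of good for n ≤ find are locally constant
      have hloc : ∀ N : ℕ, ∃ m' : ℕ, ∀ y' : SF ℕ, (∀ l < m', y' l = y1 l) →
          ∀ n ≤ N, (good k i y' n ↔ good k i y1 n) := by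
        intro N
        induction N with
        | zero =>
          obtain ⟨m', hm'⟩ := hgood_loc k i 0 y1
          refine ⟨m', fun y' hy' n hn => ?_⟩
          have : n = 0 := by omega
          subst this
          exact hm' y' hy'
        | succ N ih =>
          obtain ⟨m1, hm1⟩ := ih
          obtain ⟨m2, hm2⟩ := hgood_loc k i (N + 1) y1
          refine ⟨max m1 m2, fun y' hy' n hn => ?_⟩
          by_cases hnN : n ≤ N
          · exact hm1 y' (fun l hl => hy' l (lt_of_lt_of_le hl (le_max_left _ _))) n hnN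
          · have : n = N + 1 := by omega
            subst this
            exact hm2 y' (fun l hl => hy' l (lt_of_lt_of_le hl (le_max_right _ _)))
      obtain ⟨m', hm'⟩ := hloc (Nat.find hg1)
      have hval : ∀ y' : SF ℕ, (∀ l < m', y' l = y1 l) → T k y' i = (f k (Nat.find hg1)).1.2.2.2 i := by
        intro y' hy'
        have h1 := hm' y' hy'
        have hex' : ∃ n, good k i y' n := ⟨Nat.find hg1, (h1 _ le_rfl).mpr (Nat.find_spec hg1)⟩
        have hfind : Nat.find hex' = Nat.find hg1 := by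
          apply le_antisymm
          · exact Nat.find_min' _ ((h1 _ le_rfl).mpr (Nat.find_spec hg1))
          · by_contra hlt
            push Not at hlt
            exact Nat.find_min hg1 hlt ((h1 _ hlt.le).mp (Nat.find_spec hex'))
        simp only [T]
        rw [dif_pos hex', hfind]
      refine ⟨y1, m', hy1, fun y'' hy'' => ⟨m', fun y' hy' => ?_⟩⟩
      rw [hval y' (fun l hl => (hy' l hl).trans (hy'' l hl)), hval y'' hy'']
    · push Not at hex
      refine ⟨y, m, fun _ _ => rfl, fun y'' hy'' => ⟨m, fun y' hy' => ?_⟩⟩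
      have h1 : ¬ ∃ n, good k i y'' n := by
        rintro ⟨n, hn⟩
        exact hex y'' hy'' n hn
      have h2 : ¬ ∃ n, good k i y' n := by
        rintro ⟨n, hn⟩
        exact hex y' (fun l hl => (hy' l hl).trans (hy'' l hl)) n hn
      simp only [T]
      rw [dif_neg h1, dif_neg h2]
  refine ⟨x, T, W, ?_, ?_⟩
  · intro j y m
    simp only [W]
    split_ifs
    · exact hd1 _ _ y m
    · exact hd2 _ _ y m
  · intro y hy
    have hy1 : ∀ k i, y ∈ W1 k i := by
      intro k i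
      have := hy (2 * Nat.pair k i)
      simp only [W] at this
      have e1 : 2 * Nat.pair k i % 2 = 0 := by omega
      have e2 : 2 * Nat.pair k i / 2 = Nat.pair k i := by omega
      rw [if_pos e1, e2, Nat.unpair_pair] at this
      exact this
    have hy2 : ∀ k i, y ∈ W2 k i := by
      intro k i
      have := hy (2 * Nat.pair k i + 1)
      simp only [W] at this
      have e1 : ¬ (2 * Nat.pair k i + 1) % 2 = 0 := by omega
      have e2 : (2 * Nat.pair k i + 1) / 2 = Nat.pair k i := by omega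
      rw [if_neg e1, e2, Nat.unpair_pair] at this
      exact this
    refine ⟨hy2, ?_⟩
    intro t
    have hmem : pt y t ∈ ⋃ n, Z n := by rw [hZu]; trivial
    rw [mem_iUnion] at hmem
    obtain ⟨k, hk⟩ := hmem
    refine ⟨k, fun i hi => ?_⟩
    have hnV : y ∉ VB (D k) (Z k) i x := by
      obtain ⟨m, hm⟩ := hy1 k i
      exact hm y (fun _ _ => rfl)
    have hRi : (pt y t).1.2.2.1 i = true := by
      simp only [pt]
      exact decide_eq_true hi
    have hex : ∃ n, good k i y n := by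
      by_contra hno
      apply hnV
      refine ⟨pt y t, hk, rfl, rfl, hRi, ?_⟩
      intro z' hz' hne hR hc
      obtain ⟨n, hn⟩ := hf k hz'
      apply hno
      refine ⟨n, ?_⟩
      simp only [good]
      rw [hn]
      exact ⟨hz', hne, hR, hc⟩
    have hT : T k y i = (f k (Nat.find hex)).1.2.2.2 i := by
      simp only [T]
      rw [dif_pos hex]
    obtain ⟨g1, g2, g3, g4⟩ := Nat.find_spec hex
    rw [hT]
    by_contra hlt
    push Not at hlt
    refine hZ k (pt y t) hk (f k (Nat.find hex)) (hDZ k g1) ?_ ?_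
    · intro h
      exact g2 (by rw [← h])
    · refine ⟨fun h => g2 h.symm, g4, i, hRi, g3, ?_⟩
      rw [abs_sub_comm] at hlt
      exact hlt

end Pool.Agent.Helper49.OCA
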