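import Mathlib

set_option autoImplicit false

namespace Pool.Agent.Helper49.OCA

/-- Todorcevic's open colouring axiom: for every second countable metrizable space `X` and every
open symmetric set `K` of pairs, either some uncountable `Y ⊆ X` has all its pairs of distinct
points in `K`, or `X` is a countable union of sets none of whose pairs of distinct points
is in `K`. -/
def OpenColoringAxiom : Prop :=
  ∀ (X : Type) [TopologicalSpace X] [TopologicalSpace.MetrizableSpace X]
    [SecondCountableTopology X] (K : Set (X × X)),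
    IsOpen K → (∀ x y : X, (x, y) ∈ K → (y, x) ∈ K) →
    (∃ Y : Set X, ¬ Y.Countable ∧ ∀ x ∈ Y, ∀ y ∈ Y, x ≠ y → (x, y) ∈ K) ∨
    (∃ Z : ℕ → Set X, (⋃ n, Z n) = Set.univ ∧ ∀ n, ∀ x ∈ Z n, ∀ y ∈ Z n, x ≠ y → (x, y) ∉ K)

end Pool.Agent.Helper49.OCA
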