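import Pool.Agent.Helper49.OCA.Stable
import Pool.Agent.Helper49.OCA.OCADef

set_option autoImplicit false

open Filter Topology Set

namespace Pool.Agent.Helper49.OCA

/-- nodes of the binary tree -/
abbrev Tr := Σ n : ℕ, (Fin n → Bool)

def node (x : ℕ → Bool) (n : ℕ) : Tr := ⟨n, fun i => x i⟩

lemma node_inj (x : ℕ → Bool) : Function.Injective (node x) := by
  intro n m h
  exact congrArg Sigma.fst h

def onb (x : ℕ → Bool) (j : Tr) : Prop := ∀ i : Fin j.1, j.2 i = x i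

lemma onb_node (x : ℕ → Bool) (j : Tr) (h : onb x j) : node x j.1 = j := by
  obtain ⟨n, f⟩ := j
  unfold node
  simp only [Sigma.mk.injEq, heq_eq_eq, true_and]
  funext i
  exact (h i).symm

lemma onb_of_node (x : ℕ → Bool) (n : ℕ) : onb x (node x n) := fun i => rfl

lemma ext_node (x : ℕ → Bool) (y : SF ℕ) (j : Tr) (h : onb x j) : ext (node x) y j = y j.1 := by
  have := ext_apply (node_inj x) y j.1
  rwa [onb_node x j h] at this

lemma ext_node' (x : ℕ → Bool) (y : SF ℕ) (j : Tr) (h : ¬ onb x j) : ext (node x) y j = 0 := by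
  apply ext_apply'
  rintro ⟨k, rfl⟩
  exact h (onb_of_node x k)

def Compat (x : ℕ → Bool) (y : SF ℕ) (x' : ℕ → Bool) (y' : SF ℕ) : Prop :=
  ∀ n, (∀ i < n, x i = x' i) → y n = y' n

lemma Compat.symm {x x' : ℕ → Bool} {y y' : SF ℕ} (h : Compat x y x' y') : Compat x' y' x y :=
  fun n hn => (h n (fun i hi => (hn i hi).symm)).symm

abbrev Pt := (ℕ → Bool) × (SF ℕ) × (ℕ → Bool) × (ℕ → ℝ)

variable {L : SF Tr → ℕ → ℝ}

/-- the space of the colouring -/
def PP' (L : SF Tr → ℕ → ℝ) (η : ℝ) : Set Pt :=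
  {z | (∃ t : SF ℕ, ∀ i, z.2.2.1 i = true ↔ 1 - η ≤ L (ext (node z.1) t) i) ∧
    z.2.2.2 = L (ext (node z.1) z.2.1)}

/-- the open colour -/
def KK (L : SF Tr → ℕ → ℝ) (η : ℝ) : Set (PP' L η × PP' L η) :=
  {p | p.1.1.1 ≠ p.2.1.1 ∧ Compat p.1.1.1 p.1.1.2.1 p.2.1.1 p.2.1.2.1 ∧
    ∃ i, p.1.1.2.2.1 i = true ∧ p.2.1.2.2.1 i = true ∧ 4 * η < |p.1.1.2.2.2 i - p.2.1.2.2.2 i|}

lemma KK_symm (η : ℝ) (a b : PP' L η) (h : (a, b) ∈ KK L η) : (b, a) ∈ KK L η := by
  obtain ⟨h1, h2, i, h3, h4, h5⟩ := h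
  refine ⟨h1.symm, h2.symm, i, h4, h3, ?_⟩
  rw [abs_sub_comm]
  exact h5

lemma KK_open (η : ℝ) : IsOpen (KK L η) := by
  have e : KK L η = ⋃ d : ℕ, ({p : PP' L η × PP' L η | p.1.1.1 d ≠ p.2.1.1 d} ∩
      (⋂ n ∈ Finset.range (d + 1), {p : PP' L η × PP' L η |
        (∀ i < n, p.1.1.1 i = p.2.1.1 i) → p.1.1.2.1 n = p.2.1.2.1 n}) ∩
      ⋃ i : ℕ, {p : PP' L η × PP' L η | p.1.1.2.2.1 i = true ∧ p.2.1.2.2.1 i = true ∧
        4 * η < |p.1.1.2.2.2 i - p.2.1.2.2.2 i|}) := by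
    ext p
    simp only [mem_iUnion, mem_inter_iff, mem_iInter, mem_ofPred_eq, Finset.mem_range]
    constructor
    · rintro ⟨h1, h2, i, h3⟩
      obtain ⟨d, hd⟩ := Function.ne_iff.mp h1
      exact ⟨d, ⟨hd, fun n _ => h2 n⟩, i, h3⟩
    · rintro ⟨d, ⟨hd, h2⟩, i, h3⟩
      refine ⟨Function.ne_iff.mpr ⟨d, hd⟩, ?_, i, h3⟩
      intro n hn
      by_cases hnd : n < d + 1
      · exact h2 n hnd hn
      · exact absurd (hn d (by omega)) hd
  rw [e]
  have c1 : ∀ d : ℕ, Continuous (fun p : PP' L η × PP' L η => p.1.1.1 d) := fun d => by fun_prop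
  have c2 : ∀ d : ℕ, Continuous (fun p : PP' L η × PP' L η => p.2.1.1 d) := fun d => by fun_prop
  have c3 : ∀ d : ℕ, Continuous (fun p : PP' L η × PP' L η => p.1.1.2.1 d) := fun d => by fun_prop
  have c4 : ∀ d : ℕ, Continuous (fun p : PP' L η × PP' L η => p.2.1.2.1 d) := fun d => by fun_prop
  have c5 : ∀ d : ℕ, Continuous (fun p : PP' L η × PP' L η => p.1.1.2.2.1 d) :=
    fun d => by fun_prop
  have c6 : ∀ d : ℕ, Continuous (fun p : PP' L η × PP' L η => p.2.1.2.2.1 d) :=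
    fun d => by fun_prop
  have c7 : ∀ d : ℕ, Continuous (fun p : PP' L η × PP' L η => p.1.1.2.2.2 d) :=
    fun d => by fun_prop
  have c8 : ∀ d : ℕ, Continuous (fun p : PP' L η × PP' L η => p.2.1.2.2.2 d) :=
    fun d => by fun_prop
  apply isOpen_iUnion
  intro d
  refine ((isOpen_ne_fun (c1 d) (c2 d)).inter ?_).inter ?_
  · apply isOpen_biInter_finset
    intro n _
    have : {p : PP' L η × PP' L η |
        (∀ i < n, p.1.1.1 i = p.2.1.1 i) → p.1.1.2.1 n = p.2.1.2.1 n} =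
        (⋃ i ∈ Finset.range n, {p : PP' L η × PP' L η | p.1.1.1 i ≠ p.2.1.1 i}) ∪
          {p : PP' L η × PP' L η | p.1.1.2.1 n = p.2.1.2.1 n} := by
      ext p
      simp only [mem_union, mem_iUnion, mem_ofPred_eq, Finset.mem_range]
      constructor
      · intro h
        by_cases hh : ∀ i < n, p.1.1.1 i = p.2.1.1 i
        · right; exact h hh
        · left
          push Not at hh
          obtain ⟨i, hi, hne⟩ := hh
          exact ⟨i, hi, hne⟩
      · rintro (⟨i, hi, hne⟩ | h) hh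
        · exact absurd (hh i hi) hne
        · exact h
    rw [this]
    refine (isOpen_biUnion (fun i _ => isOpen_ne_fun (c1 i) (c2 i))).union ?_
    have : {p : PP' L η × PP' L η | p.1.1.2.1 n = p.2.1.2.1 n} =
        (fun p : PP' L η × PP' L η => (p.1.1.2.1 n, p.2.1.2.1 n)) ⁻¹' {q | q.1 = q.2} := rfl
    rw [this]
    exact (isOpen_discrete _).preimage ((c3 n).prodMk (c4 n))
  · apply isOpen_iUnion
    intro i
    have h1 : IsOpen {p : PP' L η × PP' L η | p.1.1.2.2.1 i = true} :=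
      (isOpen_discrete ({true} : Set Bool)).preimage (c5 i)
    have h2 : IsOpen {p : PP' L η × PP' L η | p.2.1.2.2.1 i = true} :=
      (isOpen_discrete ({true} : Set Bool)).preimage (c6 i)
    have h3 : IsOpen {p : PP' L η × PP' L η | 4 * η < |p.1.1.2.2.2 i - p.2.1.2.2.2 i|} :=
      isOpen_lt continuous_const (((c7 i).sub (c8 i)).abs)
    exact h1.inter (h2.inter h3)

/-- no uncountable homogeneous set in the open colour -/
lemma no_uncountable (hL : Stab L) (η : ℝ) (hη : 0 < η) (H : Set (PP' L η))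
    (hH : ∀ a ∈ H, ∀ b ∈ H, a ≠ b → (a, b) ∈ KK L η) : H.Countable := by
  classical
  -- the glued function
  let g : SF Tr := fun j => if h : ∃ z ∈ H, onb z.1.1 j then h.choose.1.2.1 j.1 else 0
  have hg : ∀ z ∈ H, ∀ j, onb z.1.1 j → g j = z.1.2.1 j.1 := by
    intro z hz j hj
    have hex : ∃ z ∈ H, onb z.1.1 j := ⟨z, hz, hj⟩
    have h1 : g j = hex.choose.1.2.1 j.1 := by simp only [g]; rw [dif_pos hex]
    rw [h1]
    by_cases hzz : hex.choose = z
    · rw [hzz]
    · obtain ⟨_, h2, _⟩ := hH _ hex.choose_spec.1 _ hz hzz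
      apply h2
      intro i hi
      have a1 := hex.choose_spec.2 ⟨i, hi⟩
      have a2 := hj ⟨i, hi⟩
      exact a1.symm.trans a2
  have hn : ∀ z ∈ H, ∃ n : ℕ, ∀ i ≥ n, z.1.2.2.1 i = true → |L g i - z.1.2.2.2 i| ≤ 2 * η := by
    intro z hz
    obtain ⟨⟨t, ht⟩, hF⟩ := z.2
    set x := z.1.1 with hx
    set y := z.1.2.1 with hy
    have h1 := hL.add_disj (ext (node x) y) (rs {j | ¬ onb x j} g) g (by
      intro j
      by_cases hj : onb x j
      · left
        refine ⟨?_, rs_nmem (by simpa using hj)⟩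
        rw [hg z hz j hj, ext_node x y j hj]
      · right
        refine ⟨(rs_mem (A := {j | ¬ onb x j}) hj).symm, ext_node' x y j hj⟩)
    have h2 := hL.dom (ext (node x) t) (rs {j | ¬ onb x j} g) (by
      intro j
      by_cases hj : onb x j
      · right; exact rs_nmem (by simpa using hj)
      · left; exact ext_node' x t j hj) η (3 / 2 * η) (by linarith) {i | z.1.2.2.1 i = true}
      (Eventually.of_forall (fun i hi => (ht i).mp hi))
    have h3 : ∀ᶠ i in atTop, |L g i - L (ext (node x) y) i - L (rs {j | ¬ onb x j} g) i| < η / 2 := by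
      have := (tendsto_zero_iff_abs_tendsto_zero _).mp h1
      exact this.eventually (gt_mem_nhds (by linarith))
    obtain ⟨n, hn⟩ := eventually_atTop.mp (h2.and h3)
    refine ⟨n, fun i hi hR => ?_⟩
    obtain ⟨b1, b2⟩ := hn i hi
    have b3 := b1 hR
    rw [hF]
    rw [abs_le] at b3 ⊢
    rw [abs_lt] at b2
    constructor <;> linarith [b2.1, b2.2, b3.1, b3.2]
  choose! nn hnn using hn
  -- the code
  let code : PP' L η → Σ n : ℕ, (Fin n → ℤ) := fun z => ⟨nn z, fun i => ⌊z.1.2.2.2 i / η⌋⟩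
  have hinj : Set.InjOn code H := by
    intro a ha b hb hab
    by_contra hne
    obtain ⟨_, _, i, h3, h4, h5⟩ := hH a ha b hb hne
    have hnab : nn a = nn b := congrArg Sigma.fst hab
    by_cases hi : nn a ≤ i
    · have a1 := hnn a ha i hi h3
      have a2 := hnn b hb i (hnab ▸ hi) h4
      rw [abs_le] at a1 a2
      rw [lt_abs] at h5
      rcases h5 with h5 | h5
      · simp only at h5; linarith [a1.1, a1.2, a2.1, a2.2]
      · simp only at h5; linarith [a1.1, a1.2, a2.1, a2.2]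
    · push Not at hi
      have hfl : ⌊a.1.2.2.2 i / η⌋ = ⌊b.1.2.2.2 i / η⌋ := by
        have key : ∀ (p q : Σ n : ℕ, (Fin n → ℤ)), p = q → ∀ (hp : i < p.1) (hq : i < q.1),
            p.2 ⟨i, hp⟩ = q.2 ⟨i, hq⟩ := by
          rintro p q rfl hp hq
          rfl
        exact key _ _ hab hi (by show i < nn b; rw [← hnab]; exact hi)
      have habs : |a.1.2.2.2 i / η - b.1.2.2.2 i / η| < 1 := Int.abs_sub_lt_one_of_floor_eq_floor hfl
      rw [← sub_div, abs_div, abs_of_pos hη, div_lt_one hη] at habs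
      simp only at h5
      linarith
  exact Set.countable_of_injective_of_countable_image hinj (Set.to_countable _)

end Pool.Agent.Helper49.OCA
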