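import Pool.Agent.Helper49.OCA.Blocks
import Pool.Agent.Helper49.OCA.Branch

set_option autoImplicit false

open Filter Topology Set

namespace Pool.Agent.Helper49.OCA

lemma ext_ext {α β γ : Type} (e : β → γ) (he : Function.Injective e) (f : α → β)
    (hf : Function.Injective f) (y : SF α) : ext e (ext f y) = ext (e ∘ f) y := by
  funext j
  by_cases hj : ∃ k, e k = j
  · obtain ⟨k, rfl⟩ := hj
    rw [ext_apply he]
    by_cases hk : ∃ l, f l = k
    · obtain ⟨l, rfl⟩ := hk
      rw [ext_apply hf]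
      exact (ext_apply (he.comp hf) y l).symm
    · rw [ext_apply' _ _ hk, ext_apply']
      rintro ⟨l, hl⟩
      exact hk ⟨l, he hl⟩
  · rw [ext_apply' _ _ hj, ext_apply']
    rintro ⟨l, hl⟩
    exact hj ⟨f l, hl⟩

/-- from the branch data to blocks, in the stable system on `ℕ` -/
theorem core_stab (hO : OpenColoringAxiom) {L0 : SF ℕ → ℕ → ℝ} (h0 : Stab L0) :
    ∃ (v : SF ℕ) (a r : ℕ → ℕ) (c : ℕ → ℝ), StrictMono r ∧
      (∀ m, {n | v n ≠ 0 ∧ a n = m}.Finite) ∧ (∀ m, 44 / 100 ≤ c m) ∧
      ∀ ε : SF ℕ, ∀ᶠ m in atTop, |L0 (fun n => v n * ε (a n)) (r m) - (ε m : ℝ) * c m| ≤ 15 / 100 := by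
  classical
  -- to the tree
  let enc : Tr → ℕ := Encodable.encode
  have henc : Function.Injective enc := Encodable.encode_injective
  have hT : Stab (fun y : SF Tr => L0 (ext enc y)) := h0.comp enc henc
  obtain ⟨x, T, W, hW1, hW2⟩ := exists_branch hO hT (1 / 1000) (by norm_num)
  have hLm : Stab (fun y : SF ℕ => L0 (ext enc (ext (node x) y))) := hT.comp (node x) (node_inj x)
  set Lm : SF ℕ → ℕ → ℝ := fun y => L0 (ext enc (ext (node x) y)) with hLmdef
  have S : Sys Lm T {y | ∀ j, y ∈ W j} (1 / 1000) (4 * (1 / 1000)) :=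
    ⟨hLm, fun y hy => (hW2 y hy).1, fun y hy => (hW2 y hy).2⟩
  -- the initial generic set
  obtain ⟨D0, b0, -, hD0, -, hall⟩ := generic (D := univ) infinite_univ (b := fun _ => 0) (O := W)
    (by
      intro j y _ m
      obtain ⟨y', m', h1, h2⟩ := hW1 j y m
      exact ⟨y', m', fun n hn => absurd (mem_univ n) hn, h1, fun y'' _ h => h2 y'' h⟩)
  obtain ⟨k, B, b', R, s, hB, hR, hG, hs, hpk, happ⟩ :=
    exists_term S (by norm_num) hD0 b0 (fun y hy => (hall y hy).2)
  -- reindex
  obtain ⟨e1, he1, hrange⟩ : ∃ e1 : ℕ → ℕ, StrictMono e1 ∧ range e1 = B := by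
    have : Infinite B := hB.to_subtype
    exact ⟨Nat.orderEmbeddingOfSet B, (Nat.orderEmbeddingOfSet B).strictMono,
      Nat.orderEmbeddingOfSet_range B⟩
  have hext1 : ∀ (y : SF ℕ) k, Function.extend e1 y b' (e1 k) = y k :=
    fun y k => he1.injective.extend_apply _ _ _
  have hext2 : ∀ (y : SF ℕ) n, n ∉ B → Function.extend e1 y b' n = b' n := by
    intro y n hn
    apply Function.extend_apply'
    rw [← hrange] at hn
    exact hn
  have hEO : ∀ y : SF ℕ, EqOff B (Function.extend e1 y b') b' := fun y n hn => hext2 y n hn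
  have H : Blk (fun y : SF ℕ => Lm (ext e1 y)) (fun y : SF ℕ => T k (Function.extend e1 y b'))
      (Lm (Function.extend e1 (fun _ => 0) b')) R (fun n => s (e1 n)) (15 / 1000) := by
    refine ⟨hLm.comp e1 he1.injective, by norm_num, ?_, ?_, hR, ?_⟩
    · intro y i
      obtain ⟨m, hm⟩ := S.loc _ (hG _ (hEO y)) k i
      refine ⟨m, fun y' hy' => hm _ ?_⟩
      intro n hn
      by_cases hnB : n ∈ B
      · rw [← hrange] at hnB
        obtain ⟨l, rfl⟩ := hnB
        rw [hext1, hext1]
        exact hy' l (lt_of_le_of_lt he1.le_apply hn)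
      · rw [hext2 _ n hnB, hext2 _ n hnB]
    · intro y
      have h1 := happ _ (hEO y)
      have h2 := hLm.add_disj (ext e1 y) (Function.extend e1 (fun _ => 0) b')
        (Function.extend e1 y b') (by
          intro n
          by_cases hnB : n ∈ B
          · rw [← hrange] at hnB
            obtain ⟨l, rfl⟩ := hnB
            left
            rw [hext1, hext1, ext_apply he1.injective]
            exact ⟨rfl, rfl⟩
          · right
            rw [hext2 _ n hnB, hext2 _ n hnB]
            refine ⟨rfl, ?_⟩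
            apply ext_apply'
            rw [← hrange] at hnB
            exact hnB)
      have h3 : ∀ᶠ i in atTop, |Lm (Function.extend e1 y b') i - Lm (ext e1 y) i -
          Lm (Function.extend e1 (fun _ => 0) b') i| < 1 / 10000 :=
        ((tendsto_zero_iff_abs_tendsto_zero _).mp h2).eventually (gt_mem_nhds (by norm_num))
      filter_upwards [h1, h3] with i a1 a2 hi
      have a1 := a1 hi
      rw [abs_lt] at a2
      rw [abs_le] at a1 ⊢
      constructor <;> linarith [a1.1, a1.2, a2.1, a2.2]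
    · intro i hi
      have h1 := hpk i hi
      have h2 : ext e1 (fun n => s (e1 n)) = s := by
        funext n
        by_cases hnB : n ∈ B
        · rw [← hrange] at hnB
          obtain ⟨l, rfl⟩ := hnB
          rw [ext_apply he1.injective]
        · rw [hs n hnB]
          apply ext_apply'
          rw [← hrange] at hnB
          exact hnB
      rw [h2]
      linarith
  obtain ⟨v, a, r, c, hr, hfin, hc, hε⟩ := H.blocks
  -- go back
  let E : ℕ → ℕ := enc ∘ (node x ∘ e1)
  have hE : Function.Injective E := henc.comp ((node_inj x).comp he1.injective)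
  refine ⟨ext E v, Function.extend E a 0, r, c, hr, ?_, hc, ?_⟩
  · intro m
    refine ((hfin m).image E).subset ?_
    rintro n ⟨hn1, hn2⟩
    by_cases hn : ∃ l, E l = n
    · obtain ⟨l, rfl⟩ := hn
      rw [ext_apply hE] at hn1
      rw [hE.extend_apply] at hn2
      exact ⟨l, ⟨hn1, hn2⟩, rfl⟩
    · exact absurd (ext_apply' _ _ hn) hn1
  · intro ε
    filter_upwards [hε ε] with m hm
    have e : (fun n => ext E v n * ε (Function.extend E a 0 n)) =
        ext enc (ext (node x) (ext e1 (fun n => v n * ε (a n)))) := by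
      rw [ext_ext (node x) (node_inj x) e1 he1.injective,
        ext_ext enc henc _ ((node_inj x).comp he1.injective)]
      funext n
      by_cases hn : ∃ l, E l = n
      · obtain ⟨l, rfl⟩ := hn
        rw [ext_apply hE, hE.extend_apply]
        exact (ext_apply hE (fun n => v n * ε (a n)) l).symm
      · rw [ext_apply' _ _ hn, zero_mul]
        exact (ext_apply' (e := E) (fun n => v n * ε (a n)) _ hn).symm
    rw [e]
    simp only [hLmdef] at hm
    refine hm.trans (by norm_num)

/-- the combinatorial core -/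
theorem core (hO : OpenColoringAxiom) {F : SF ℕ → ℕ → ℝ} {C c : ℝ} (hF : Raw F C c) (hc : 0 < c) :
    ∃ (γ : ℝ) (v : SF ℕ) (a r : ℕ → ℕ) (d : ℕ → ℝ), 0 < γ ∧ StrictMono r ∧
      (∀ m, {n | v n ≠ 0 ∧ a n = m}.Finite) ∧ (∀ m, 44 / 100 * γ ≤ d m) ∧
      ∀ ε : SF ℕ, ∀ᶠ m in atTop,
        |F (fun n => v n * ε (a n)) (r m) - (ε m : ℝ) * d m| ≤ 15 / 100 * γ := by
  classical
  obtain ⟨γ, hγ, e, he, hS⟩ := exists_stab hF hc
  obtain ⟨v, a, r, d, hr, hfin, hd, hε⟩ := core_stab hO hS
  refine ⟨γ, ext e v, Function.extend e a 0, r, fun m => d m * γ, hγ, hr, ?_, ?_, ?_⟩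
  · intro m
    refine ((hfin m).image e).subset ?_
    rintro n ⟨hn1, hn2⟩
    by_cases hn : ∃ l, e l = n
    · obtain ⟨l, rfl⟩ := hn
      rw [ext_apply he] at hn1
      rw [he.extend_apply] at hn2
      exact ⟨l, ⟨hn1, hn2⟩, rfl⟩
    · exact absurd (ext_apply' _ _ hn) hn1
  · intro m
    have := hd m
    nlinarith
  · intro ε
    filter_upwards [hε ε] with m hm
    have e1 : (fun n => ext e v n * ε (Function.extend e a 0 n)) =
        ext e (fun n => v n * ε (a n)) := by
      funext n
      by_cases hn : ∃ l, e l = n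
      · obtain ⟨l, rfl⟩ := hn
        rw [ext_apply he, ext_apply he, he.extend_apply]
      · rw [ext_apply' _ _ hn, ext_apply' _ _ hn, zero_mul]
    rw [e1]
    have h2 : F (ext e (fun n => v n * ε (a n))) (r m) - (ε m : ℝ) * (d m * γ) =
        (F (ext e (fun n => v n * ε (a n))) (r m) / γ - (ε m : ℝ) * d m) * γ := by
      field_simp
    rw [h2, abs_mul, abs_of_pos hγ]
    exact mul_le_mul_of_nonneg_right hm hγ.le

end Pool.Agent.Helper49.OCA
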