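import Pool.Agent.Helper49.OCA.Basic

set_option autoImplicit false

open Filter Topology Set

namespace Pool.Agent.Helper49.OCA

/-- `y` agrees with `b` outside `D` -/
def EqOff (D : Set ℕ) (y b : SF ℕ) : Prop := ∀ n, n ∉ D → y n = b n

lemma EqOff.refl (D : Set ℕ) (y : SF ℕ) : EqOff D y y := fun _ _ => rfl

lemma EqOff.symm {D : Set ℕ} {y b : SF ℕ} (h : EqOff D y b) : EqOff D b y :=
  fun n hn => (h n hn).symm

lemma EqOff.trans {D : Set ℕ} {y b c : SF ℕ} (h : EqOff D y b) (h' : EqOff D b c) : EqOff D y c :=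
  fun n hn => (h n hn).trans (h' n hn)

lemma EqOff.mono {D D' : Set ℕ} {y b : SF ℕ} (h : EqOff D y b) (hD : D ⊆ D') : EqOff D' y b :=
  fun n hn => h n (fun h' => hn (hD h'))

/-- relatively open dense -/
def RD (D : Set ℕ) (b : SF ℕ) (O : Set (SF ℕ)) : Prop :=
  ∀ y : SF ℕ, EqOff D y b → ∀ m : ℕ, ∃ (y' : SF ℕ) (m' : ℕ), EqOff D y' b ∧
    (∀ n < m, y' n = y n) ∧ ∀ y'' : SF ℕ, EqOff D y'' b → (∀ n < m', y'' n = y' n) → y'' ∈ O

lemma one_block {D : Set ℕ} {b : SF ℕ} {O : Set (SF ℕ)} (h : RD D b O) (m : ℕ) :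
    ∃ (w : SF ℕ) (m' : ℕ), EqOff D w b ∧ m ≤ m' ∧
      ∀ y : SF ℕ, EqOff D y b → (∀ n, m ≤ n → n < m' → y n = w n) → y ∈ O := by
  classical
  have key : ∀ S : Finset (Fin m → SignType), ∃ (w : SF ℕ) (m' : ℕ), EqOff D w b ∧ m ≤ m' ∧
      ∀ v ∈ S, ∀ y : SF ℕ, EqOff D y b → (∀ n : Fin m, y n = v n) →
        (∀ n, m ≤ n → n < m' → y n = w n) → y ∈ O := by
    intro S
    induction S using Finset.induction_on with
    | empty => exact ⟨b, m, EqOff.refl _ _, le_rfl, by simp⟩
    | insert v S hv ih =>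
      obtain ⟨w, m', hw, hm, hS⟩ := ih
      let y0 : SF ℕ := fun n => if hn : n < m then (if n ∈ D then v ⟨n, hn⟩ else w n) else w n
      have hy0 : EqOff D y0 b := by
        intro n hn
        have : y0 n = w n := by
          simp only [y0]
          split_ifs <;> rfl
        rw [this]
        exact hw n hn
      obtain ⟨y', m'', hy', hy'2, hO⟩ := h y0 hy0 m'
      refine ⟨fun n => if n < m then w n else y' n, max m' m'', ?_, le_trans hm (le_max_left _ _), ?_⟩
      · intro n hn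
        simp only
        split_ifs
        · exact hw n hn
        · exact hy' n hn
      · intro v' hv' y hy hyv hyw
        rcases Finset.mem_insert.mp hv' with rfl | hv'S
        · apply hO y hy
          intro n hn
          by_cases hnm : n < m
          · rw [hy'2 n (lt_of_lt_of_le hnm hm)]
            by_cases hnD : n ∈ D
            · simp only [y0]
              rw [dif_pos hnm, if_pos hnD]
              exact hyv ⟨n, hnm⟩
            · rw [hy n hnD, hy0 n hnD]
          · have := hyw n (by omega) (lt_of_lt_of_le hn (le_max_right _ _))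
            simp only [if_neg hnm] at this
            exact this
        · apply hS v' hv'S y hy hyv
          intro n hn1 hn2
          have h1 := hyw n hn1 (lt_of_lt_of_le hn2 (le_max_left _ _))
          have hnm : ¬ n < m := by omega
          simp only [if_neg hnm] at h1
          rw [h1, hy'2 n hn2]
          simp only [y0]
          rw [dif_neg hnm]
  obtain ⟨w, m', hw, hm, hS⟩ := key Finset.univ
  exact ⟨w, m', hw, hm, fun y hy hyw => hS (fun n => y n) (Finset.mem_univ _) y hy (fun _ => rfl) hyw⟩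

lemma one_step {D : Set ℕ} (hD : D.Infinite) {b : SF ℕ} {O : Set (SF ℕ)} (h : RD D b O)
    (m : ℕ) (w : SF ℕ) (hw : EqOff D w b) :
    ∃ (a m' : ℕ) (w' : SF ℕ), a ∈ D ∧ m ≤ a ∧ a < m' ∧ EqOff D w' b ∧ (∀ n < m, w' n = w n) ∧
      ∀ y : SF ℕ, EqOff D y b → (∀ n, a < n → n < m' → y n = w' n) → y ∈ O := by
  classical
  obtain ⟨a, haD, ham⟩ := hD.exists_gt m
  obtain ⟨w1, m1, hw1, hm1, hO⟩ := one_block h (a + 1)
  refine ⟨a, m1, fun n => if n < a + 1 then w n else w1 n, haD, ham.le, by omega, ?_, ?_, ?_⟩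
  · intro n hn
    simp only
    split_ifs
    · exact hw n hn
    · exact hw1 n hn
  · intro n hn
    simp only
    rw [if_pos (by omega)]
  · intro y hy hyw
    apply hO y hy
    intro n hn1 hn2
    have := hyw n (by omega) hn2
    have h3 : ¬ n < a + 1 := by omega
    simp only [if_neg h3] at this
    exact this

theorem generic {D : Set ℕ} (hD : D.Infinite) {b : SF ℕ} {O : ℕ → Set (SF ℕ)}
    (h : ∀ j, RD D b (O j)) :
    ∃ (D' : Set ℕ) (b' : SF ℕ), D' ⊆ D ∧ D'.Infinite ∧ EqOff D b' b ∧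
      ∀ y : SF ℕ, EqOff D' y b' → EqOff D y b ∧ ∀ j, y ∈ O j := by
  classical
  choose fa fm fw h1 h2 h3 h4 h5 h6 using
    fun (j m : ℕ) (w : {w : SF ℕ // EqOff D w b}) => one_step hD (h j) m w.1 w.2
  let st : ℕ → ℕ × {w : SF ℕ // EqOff D w b} := fun j => Nat.rec (0, ⟨b, EqOff.refl _ _⟩)
    (fun j p => (fm j p.1 p.2, ⟨fw j p.1 p.2, h4 j p.1 p.2⟩)) j
  have hst0 : st 0 = (0, ⟨b, EqOff.refl _ _⟩) := rfl
  have hst : ∀ j, st (j + 1) = (fm j (st j).1 (st j).2, ⟨fw j (st j).1 (st j).2, h4 _ _ _⟩) :=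
    fun j => rfl
  let M : ℕ → ℕ := fun j => (st j).1
  let w : ℕ → SF ℕ := fun j => (st j).2.1
  let a : ℕ → ℕ := fun j => fa j (st j).1 (st j).2
  have ha1 : ∀ j, a j ∈ D := fun j => h1 _ _ _
  have ha2 : ∀ j, M j ≤ a j := fun j => h2 _ _ _
  have ha3 : ∀ j, a j < M (j + 1) := fun j => h3 j (st j).1 (st j).2
  have hw4 : ∀ j, EqOff D (w j) b := fun j => (st j).2.2
  have hw5 : ∀ j, ∀ n < M j, w (j + 1) n = w j n := fun j n hn => h5 j (st j).1 (st j).2 n hn
  have hw6 : ∀ j, ∀ y : SF ℕ, EqOff D y b → (∀ n, a j < n → n < M (j + 1) → y n = w (j + 1) n) →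
      y ∈ O j := fun j y hy hyw => h6 j (st j).1 (st j).2 y hy hyw
  have hMlt : ∀ j, M j < M (j + 1) := fun j => lt_of_le_of_lt (ha2 j) (ha3 j)
  have hMs : StrictMono M := strictMono_nat_of_lt_succ hMlt
  have hMge : ∀ j, j ≤ M j := fun j => hMs.le_apply
  have hstab : ∀ j j', j ≤ j' → ∀ n < M j, w j' n = w j n := by
    intro j j' hjj'
    induction j', hjj' using Nat.le_induction with
    | base => intro n _; rfl
    | succ j' hjj' ih =>
      intro n hn
      rw [hw5 j' n (lt_of_lt_of_le hn (hMs.monotone hjj')), ih n hn]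
  let b' : SF ℕ := fun n => w (n + 1) n
  have hb' : ∀ j, ∀ n < M j, b' n = w j n := by
    intro j n hn
    rcases le_total j (n + 1) with hjn | hjn
    · exact hstab j (n + 1) hjn n hn
    · exact (hstab (n + 1) j hjn n (lt_of_lt_of_le (Nat.lt_succ_self n) (hMge (n + 1)))).symm
  have hamono : StrictMono a := strictMono_nat_of_lt_succ (fun j => lt_of_lt_of_le (ha3 j) (ha2 (j + 1)))
  refine ⟨range a, b', ?_, infinite_range_of_injective hamono.injective, ?_, ?_⟩
  · rintro _ ⟨j, rfl⟩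
    exact ha1 j
  · intro n hn
    exact hw4 (n + 1) n hn
  · intro y hy
    have hyb : EqOff D y b := by
      intro n hn
      rw [hy n (by rintro ⟨j, rfl⟩; exact hn (ha1 j))]
      exact hw4 (n + 1) n hn
    refine ⟨hyb, fun j => ?_⟩
    apply hw6 j y hyb
    intro n hn1 hn2
    have hna : n ∉ range a := by
      rintro ⟨j', rfl⟩
      have h1 : j < j' := hamono.lt_iff_lt.mp hn1
      have h2 : M (j + 1) ≤ a j' := le_trans (hMs.monotone h1) (ha2 j')
      omega
    rw [hy n hna, hb' (j + 1) n hn2]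

end Pool.Agent.Helper49.OCA
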