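import Pool.Agent.Helper49.OCA.Step

set_option autoImplicit false

open Filter Topology Set

namespace Pool.Agent.Helper49.OCA

variable {Lm : SF ℕ → ℕ → ℝ} {T : ℕ → SF ℕ → ℕ → ℝ} {G : Set (SF ℕ)} {η θ : ℝ}

theorem exists_term (S : Sys Lm T G η θ) (hη : 0 < η) {D0 : Set ℕ} (hD0 : D0.Infinite) (b0 : SF ℕ)
    (hG0 : ∀ y : SF ℕ, EqOff D0 y b0 → y ∈ G) :
    ∃ (k : ℕ) (B : Set ℕ) (b' : SF ℕ) (R : Set ℕ) (s : SF ℕ), B.Infinite ∧ R.Infinite ∧
      (∀ y : SF ℕ, EqOff B y b' → y ∈ G) ∧ (∀ j, j ∉ B → s j = 0) ∧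
      (∀ i ∈ R, 1 - 2 * (η / 4) ≤ Lm s i) ∧
      (∀ y : SF ℕ, EqOff B y b' → ∀ᶠ i in atTop, i ∈ R →
        |T k y i - Lm y i| ≤ 3 * (θ + 3 * (η / 4))) := by
  classical
  by_contra hcon
  push Not at hcon
  let St := {p : Set ℕ × SF ℕ // p.1.Infinite ∧ ∀ y : SF ℕ, EqOff p.1 y p.2 → y ∈ G}
  have hstep : ∀ (k : ℕ) (p : St), ∃ (p' : St) (R : Set ℕ) (s : SF ℕ), p'.1.1 ⊆ p.1.1 ∧
      EqOff p.1.1 p'.1.2 p.1.2 ∧ (∀ j, s j ≠ 0 → j ∈ p.1.1 ∧ j ∉ p'.1.1) ∧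
      (∀ i ∈ R, 1 - η / 4 ≤ Lm s i) ∧
      (∀ y : SF ℕ, EqOff p'.1.1 y p'.1.2 → ∃ᶠ i in atTop, i ∈ R ∧ θ < |T k y i - Lm y i|) := by
    rintro k ⟨⟨D, b⟩, hD, hG⟩
    rcases step S k hD b hG (η / 4) (by linarith) with
      ⟨B, b', R, s, h1, h2, h3, h4, h5, h6⟩ | ⟨D', b', R, s, h1, h2, h3, h4, h5, h6⟩
    · exfalso
      obtain ⟨y, hy, hy2⟩ := hcon k B b' R s h1 h2 h3 h4 h5
      refine hy2 ((h6 y hy).mono ?_)
      rintro i hi ⟨hiR, hlt⟩
      exact absurd (hi hiR) (not_le.mpr hlt)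
    · refine ⟨⟨(D', b'), h2, ?_⟩, R, s, h1, h3, h4, h5, h6⟩
      intro y hy
      exact hG y ((hy.mono h1).trans h3)
  choose fp fR fs g1 g2 g3 g4 g5 using hstep
  let st : ℕ → St := fun k => Nat.rec ⟨(D0, b0), hD0, hG0⟩ (fun k p => fp k p) k
  have hst : ∀ k, st (k + 1) = fp k (st k) := fun k => rfl
  let D : ℕ → Set ℕ := fun k => (st k).1.1
  let b : ℕ → SF ℕ := fun k => (st k).1.2
  let R : ℕ → Set ℕ := fun k => fR k (st k)
  let s : ℕ → SF ℕ := fun k => fs k (st k)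
  have a1 : ∀ k, D (k + 1) ⊆ D k := fun k => g1 k (st k)
  have a2 : ∀ k, EqOff (D k) (b (k + 1)) (b k) := fun k => g2 k (st k)
  have a3 : ∀ k j, s k j ≠ 0 → j ∈ D k ∧ j ∉ D (k + 1) := fun k => g3 k (st k)
  have a4 : ∀ k, ∀ i ∈ R k, 1 - η / 4 ≤ Lm (s k) i := fun k => g4 k (st k)
  have a5 : ∀ k, ∀ y : SF ℕ, EqOff (D (k + 1)) y (b (k + 1)) →
      ∃ᶠ i in atTop, i ∈ R k ∧ θ < |T k y i - Lm y i| := fun k => g5 k (st k)
  have hanti : Antitone D := antitone_nat_of_succ_le a1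
  have hbst : ∀ j k, j ≤ k → EqOff (D j) (b k) (b j) := by
    intro j k hjk
    induction k, hjk using Nat.le_induction with
    | base => exact EqOff.refl _ _
    | succ k hjk ih => exact ((a2 k).mono (hanti hjk)).trans ih
  let y : SF ℕ := fun n => if h : ∃ k, n ∉ D k then b (Nat.find h) n else 0
  have hy : ∀ k, EqOff (D k) y (b k) := by
    intro k n hn
    have hex : ∃ k, n ∉ D k := ⟨k, hn⟩
    have h1 : y n = b (Nat.find hex) n := by simp only [y]; rw [dif_pos hex]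
    rw [h1]
    exact ((hbst (Nat.find hex) k (Nat.find_min' _ hn)) n (Nat.find_spec hex)).symm
  have hyG : y ∈ G := hG0 y (hy 0)
  -- the glued peak
  let t : SF ℕ := fun n => if h : ∃ k, s k n ≠ 0 then s (Nat.find h) n else 0
  have huniq : ∀ k k' n, s k n ≠ 0 → s k' n ≠ 0 → k = k' := by
    intro k k' n h1 h2
    by_contra hne
    rcases lt_or_gt_of_ne hne with h | h
    · exact (a3 k n h1).2 (hanti h (a3 k' n h2).1)
    · exact (a3 k' n h2).2 (hanti h (a3 k n h1).1)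
  have ht : ∀ k n, s k n ≠ 0 → t n = s k n := by
    intro k n h
    have hex : ∃ k, s k n ≠ 0 := ⟨k, h⟩
    have h1 : t n = s (Nat.find hex) n := by simp only [t]; rw [dif_pos hex]
    rw [h1, huniq _ _ n (Nat.find_spec hex) h]
  have hpeak : ∀ k, ∀ᶠ i in atTop, i ∈ R k → 1 - η ≤ Lm t i := by
    intro k
    have h1 := S.hL.add_disj (s k) (rs {n | s k n = 0} t) t (by
      intro n
      by_cases hn : s k n = 0
      · right; exact ⟨(rs_mem (A := {n | s k n = 0}) hn).symm, hn⟩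
      · left; exact ⟨ht k n hn, rs_nmem (by simpa using hn)⟩)
    have h2 := S.hL.dom (s k) (rs {n | s k n = 0} t) (by
      intro n
      by_cases hn : s k n = 0
      · left; exact hn
      · right; exact rs_nmem (by simpa using hn)) (η / 4) (2 * (η / 4)) (by linarith) (R k)
      (Eventually.of_forall (a4 k))
    have h3 : ∀ᶠ i in atTop, -(η / 4) < Lm t i - Lm (s k) i - Lm (rs {n | s k n = 0} t) i :=
      h1.eventually (lt_mem_nhds (by linarith))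
    filter_upwards [h2, h3] with i b1 b2 hi
    have b1 := b1 hi
    have b3 := a4 k i hi
    rw [abs_le] at b1
    linarith [b1.1]
  obtain ⟨k, hk⟩ := S.cov y hyG t
  have h1 := a5 k y (hy (k + 1))
  obtain ⟨i, ⟨hiR, hlt⟩, hpk⟩ := (h1.and_eventually (hpeak k)).exists
  exact absurd (hk i (hpk hiR)) (not_le.mpr hlt)

end Pool.Agent.Helper49.OCA
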