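import Pool.Agent.H48.ParNorm
import Pool.Agent.Helper49.OCA.Core

set_option autoImplicit false

open Filter Topology Set

namespace Pool.Agent.Helper49.OCA

open Pool.Agent.H48.Par

/-- an operator of `ℓ∞` preserving `c₀` induces an operator of the quotient -/
theorem exists_induced (L : BF ℕ →ₗ[ℝ] BF ℕ) (K : ℝ) (hK : 0 ≤ K) (hb : ∀ f, ‖L f‖ ≤ K * ‖f‖)
    (h0 : ∀ f ∈ c0, L f ∈ c0) : ∃ L' : Q →L[ℝ] Q, ∀ f, L' (cl f) = cl (L f) := by
  let M : Q →ₗ[ℝ] Q := c0.mapQ c0 L (fun f hf => h0 f hf)
  have hM : ∀ f, M (cl f) = cl (L f) := fun f => Submodule.mapQ_apply _ _ _ _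
  refine ⟨M.mkContinuous K ?_, fun f => hM f⟩
  intro x
  refine le_of_forall_pos_le_add (fun ε hε => ?_)
  obtain ⟨f, rfl⟩ := cl_surj x
  obtain ⟨g, hg, hlt⟩ : ∃ g, cl g = cl f ∧ ‖g‖ < ‖cl f‖ + ε / (K + 1) :=
    Submodule.Quotient.norm_mk_lt (S := c0) (cl f) (show 0 < ε / (K + 1) by positivity)
  rw [← hg, hM]
  have h1 := cl_norm_le (L g)
  have h2 := hb g
  have h3 : K * ‖g‖ ≤ K * (‖cl f‖ + ε / (K + 1)) := mul_le_mul_of_nonneg_left hlt.le hK
  have h4 : K * (ε / (K + 1)) ≤ ε := by
    rw [mul_div_assoc', div_le_iff₀ (by linarith)]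
    nlinarith
  rw [hg]
  nlinarith

/-- a sign sequence as an element of `ℓ∞` -/
noncomputable def sb (s : SF ℕ) : BF ℕ := bf (fun n => ((s n : SignType) : ℝ)) ⟨1, by
  intro n
  cases s n <;> simp⟩

lemma sb_apply (s : SF ℕ) (n : ℕ) : sb s n = ((s n : SignType) : ℝ) := rfl

lemma sb_norm (s : SF ℕ) : ‖sb s‖ ≤ 1 := by
  apply bf_norm_le zero_le_one
  intro n
  rw [sb_apply]
  cases s n <;> simp

/-- representative -/
noncomputable def rep (x : Q) : BF ℕ := (cl_surj x).choose

lemma cl_rep (x : Q) : cl (rep x) = x := (cl_surj x).choose_spec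

/-- the raw system of an operator -/
noncomputable def FT (T : Q →L[ℝ] Q) (s : SF ℕ) (i : ℕ) : ℝ := rep (T (cl (sb s))) i

lemma eventually_le_of_norm {f : BF ℕ} {t : ℝ} (h : ‖cl f‖ < t) : ∀ᶠ n in atTop, f n ≤ t := by
  by_contra hcon
  have h1 : ∃ᶠ n in atTop, t ≤ f n := by
    rw [not_eventually] at hcon
    exact hcon.mono (fun n hn => (not_le.mp hn).le)
  exact absurd (le_cl_norm_of_frequently h1) (not_le.mpr h)

theorem FT_raw (T : Q →L[ℝ] Q) {c : ℝ} (hc : 0 < c) (hT : ∀ x, c * ‖x‖ ≤ ‖T x‖) :
    Raw (FT T) (‖T‖ + 1) (c / 4) := by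
  classical
  have hadd : ∀ s g u : SF ℕ, (∀ j, ((u j : ℤ)) = (s j : ℤ) + (g j : ℤ)) →
      Tendsto (fun i => FT T u i - FT T s i - FT T g i) atTop (𝓝 0) := by
    intro s g u hu
    have h1 : sb u = sb s + sb g := by
      apply bf_ext
      intro n
      rw [bf_add_apply, sb_apply, sb_apply, sb_apply]
      have := hu n
      have h2 : ((u n : ℤ) : ℝ) = ((s n : ℤ) : ℝ) + ((g n : ℤ) : ℝ) := by
        exact_mod_cast congrArg (fun z : ℤ => (z : ℝ)) this
      simpa using h2
    have h2 : cl (rep (T (cl (sb u)))) = cl (rep (T (cl (sb s))) + rep (T (cl (sb g)))) := by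
      rw [map_add, cl_rep, cl_rep, cl_rep, h1, map_add, map_add]
    rw [cl_eq] at h2
    refine h2.congr ?_
    intro n
    rw [bf_add_apply]
    simp only [FT]
    ring
  have hfin : ∀ s : SF ℕ, {j | s j ≠ 0}.Finite → Tendsto (FT T s) atTop (𝓝 0) := by
    intro s hs
    have h1 : cl (sb s) = cl 0 := by
      apply cl_eq_of_eventually
      have h2 : ∀ᶠ n in atTop, n ∉ {j | s j ≠ 0} := by
        rw [← Nat.cofinite_eq_atTop]
        exact hs.compl_mem_cofinite
      filter_upwards [h2] with n hn
      simp only [not_not] at hn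
      rw [sb_apply, hn]
      simp
    have h2 : cl (rep (T (cl (sb s)))) = cl 0 := by
      rw [cl_rep, h1]
      simp
    rw [cl_eq] at h2
    refine h2.congr ?_
    intro n
    simp [FT]
  refine ⟨hadd, hfin, ?_, ?_⟩
  · intro s
    apply eventually_le_of_norm
    rw [cl_rep]
    have h1 := T.le_opNorm (cl (sb s))
    have h2 : ‖cl (sb s)‖ ≤ 1 := (cl_norm_le _).trans (sb_norm s)
    have h3 : ‖T‖ * ‖cl (sb s)‖ ≤ ‖T‖ * 1 := mul_le_mul_of_nonneg_left h2 (norm_nonneg _)
    linarith
  · intro A hA
    let s : SF ℕ := fun j => if j ∈ A then 1 else 0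
    have hsA : ∀ j, j ∉ A → s j = 0 := fun j hj => by simp [s, hj]
    have h1 : 1 ≤ ‖cl (sb s)‖ := by
      apply le_cl_norm_of_frequently
      apply frequently_of_infinite hA
      intro n hn
      rw [sb_apply]
      simp [s, hn]
    have h2 : c ≤ ‖T (cl (sb s))‖ := by
      have := hT (cl (sb s))
      nlinarith
    have h3 : ∃ᶠ i in atTop, c / 2 ≤ |FT T s i| := by
      by_contra hcon
      rw [not_frequently] at hcon
      have h4 : ‖cl (rep (T (cl (sb s))))‖ ≤ c / 2 := by
        apply cl_norm_le_of_eventually (by linarith)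
        filter_upwards [hcon] with n hn
        exact (not_le.mp hn).le
      rw [cl_rep] at h4
      linarith
    have h4 : (∃ᶠ i in atTop, c / 2 ≤ FT T s i) ∨ (∃ᶠ i in atTop, c / 2 ≤ - FT T s i) := by
      rw [← frequently_or_distrib]
      exact h3.mono (fun i hi => by
        rcases le_abs.mp hi with h | h
        · exact Or.inl h
        · exact Or.inr h)
    rcases h4 with h4 | h4
    · exact ⟨s, hsA, h4.mono (fun i hi => by linarith)⟩
    · refine ⟨fun j => - s j, fun j hj => by simp [hsA j hj], ?_⟩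
      have h5 := hadd s (fun j => - s j) (fun _ => 0) (by intro j; cases s j <;> simp)
      have h6 := hfin (fun _ => 0) (by simp)
      have h7 := h6.sub h5
      simp only [sub_zero] at h7
      have h8 : ∀ᶠ i in atTop, -(c / 4) < FT T (fun _ => 0) i -
          (FT T (fun _ => 0) i - FT T s i - FT T (fun j => - s j) i) :=
        h7.eventually (lt_mem_nhds (by linarith))
      exact (h4.and_eventually h8).mono (fun i hi => by linarith [hi.1, hi.2])

/-- the main theorem: under the open colouring axiom every isomorphic embedding of `ℓ∞/c₀` in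
itself is, up to restriction to a copy, complemented. -/
theorem main_OCA (hO : OpenColoringAxiom) (T : Q →L[ℝ] Q) {c : ℝ} (hc : 0 < c)
    (hT : ∀ x, c * ‖x‖ ≤ ‖T x‖) :
    ∃ (A B : Q →L[ℝ] Q), ∀ x, B (T (A x)) = x := by
  classical
  obtain ⟨γ, v, a, r, d, hγ, hr, hfin, hd, hε⟩ := core hO (FT_raw T hc hT) (by positivity)
  have hdpos : ∀ m, 0 < d m := fun m => lt_of_lt_of_le (by positivity) (hd m)
  -- the operator J
  let J0 : BF ℕ →ₗ[ℝ] BF ℕ :=
    { toFun := fun t => bf (fun n => ((v n : SignType) : ℝ) * t (a n)) ⟨‖t‖, by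
        intro n
        rw [abs_mul]
        have h1 := bf_abs_le t (a n)
        have h2 : |((v n : SignType) : ℝ)| ≤ 1 := by cases v n <;> simp
        have h3 := abs_nonneg (t (a n))
        nlinarith⟩
      map_add' := by
        intro s t
        apply bf_ext
        intro n
        simp only [bf_apply, bf_add_apply]
        ring
      map_smul' := by
        intro k t
        apply bf_ext
        intro n
        simp only [bf_apply, bf_smul_apply, RingHom.id_apply]
        ring }
  have hJ0 : ∀ t n, J0 t n = ((v n : SignType) : ℝ) * t (a n) := fun _ _ => rfl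
  obtain ⟨J, hJ⟩ := exists_induced J0 1 zero_le_one (by
    intro t
    rw [one_mul]
    apply bf_norm_le (norm_nonneg _)
    intro n
    rw [hJ0, abs_mul]
    have h1 := bf_abs_le t (a n)
    have h2 : |((v n : SignType) : ℝ)| ≤ 1 := by cases v n <;> simp
    have h3 := abs_nonneg (t (a n))
    nlinarith) (by
    intro t ht
    rw [mem_c0] at ht ⊢
    rw [Metric.tendsto_atTop] at ht
    rw [← Nat.cofinite_eq_atTop, Metric.tendsto_nhds]
    intro δ hδ
    obtain ⟨N, hN⟩ := ht δ hδ
    rw [eventually_cofinite]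
    refine ((finite_Iio N).biUnion (fun m _ => hfin m)).subset ?_
    intro n hn
    simp only [mem_ofPred_eq, not_lt] at hn
    rw [hJ0, Real.dist_0_eq_abs] at hn
    have hv : v n ≠ 0 := by
      intro h0
      rw [h0] at hn
      simp at hn
      linarith
    have ha : a n < N := by
      by_contra hcon
      have h1 := hN (a n) (not_lt.mp hcon)
      rw [Real.dist_0_eq_abs] at h1
      rw [abs_mul] at hn
      have h2 : |((v n : SignType) : ℝ)| ≤ 1 := by cases v n <;> simp
      have h3 := abs_nonneg (t (a n))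
      nlinarith
    simp only [mem_iUnion]
    exact ⟨a n, ha, hv, rfl⟩)
  -- the operator R
  have hRb : ∀ m (x : ℝ), |x / d m| ≤ (1 / (44 / 100 * γ)) * |x| := by
    intro m x
    rw [abs_div, abs_of_pos (hdpos m), div_mul_eq_mul_div, one_mul]
    exact div_le_div_of_nonneg_left (abs_nonneg x) (by positivity) (hd m)
  let R0 : BF ℕ →ₗ[ℝ] BF ℕ :=
    { toFun := fun g => bf (fun m => g (r m) / d m) ⟨(1 / (44 / 100 * γ)) * ‖g‖, by
        intro m
        refine (hRb m _).trans ?_
        exact mul_le_mul_of_nonneg_left (bf_abs_le g (r m)) (by positivity)⟩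
      map_add' := by
        intro s t
        apply bf_ext
        intro n
        simp only [bf_apply, bf_add_apply]
        ring
      map_smul' := by
        intro k t
        apply bf_ext
        intro n
        simp only [bf_apply, bf_smul_apply, RingHom.id_apply]
        ring }
  have hR0 : ∀ g m, R0 g m = g (r m) / d m := fun _ _ => rfl
  obtain ⟨R, hR⟩ := exists_induced R0 (1 / (44 / 100 * γ)) (by positivity) (by
    intro g
    apply bf_norm_le (by positivity)
    intro m
    rw [hR0]
    refine (hRb m _).trans ?_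
    exact mul_le_mul_of_nonneg_left (bf_abs_le g (r m)) (by positivity)) (by
    intro g hg
    rw [mem_c0] at hg ⊢
    have h1 : Tendsto (fun m => (1 / (44 / 100 * γ)) * |g (r m)|) atTop (𝓝 0) := by
      have h2 := ((hg.comp hr.tendsto_atTop).abs).const_mul (1 / (44 / 100 * γ))
      simpa using h2
    refine squeeze_zero_norm ?_ h1
    intro m
    rw [hR0, Real.norm_eq_abs]
    exact hRb m _)
  -- the error operator
  let D : Q →L[ℝ] Q := 1 - R ∘L T ∘L J
  have hDs : ∀ ε : SF ℕ, ‖D (cl (sb ε))‖ ≤ 15 / 44 := by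
    intro ε
    have h1 : J0 (sb ε) = sb (fun n => v n * ε (a n)) := by
      apply bf_ext
      intro n
      rw [hJ0, sb_apply, sb_apply, SignType.coe_mul]
    have h2 : D (cl (sb ε)) = cl (sb ε - R0 (rep (T (cl (sb (fun n => v n * ε (a n))))))) := by
      rw [map_sub, ← hR, cl_rep, ← h1, ← hJ]
      rfl
    rw [h2]
    apply cl_norm_le_of_eventually (by norm_num)
    filter_upwards [hε ε] with m hm
    rw [bf_sub_apply, hR0, sb_apply]
    have h3 : ((ε m : SignType) : ℝ) - rep (T (cl (sb (fun n => v n * ε (a n))))) (r m) / d m =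
        -((FT T (fun n => v n * ε (a n)) (r m) - (ε m : ℝ) * d m) / d m) := by
      have := (hdpos m).ne'
      simp only [FT]
      field_simp
      ring
    rw [h3, abs_neg, abs_div, abs_of_pos (hdpos m), div_le_iff₀ (hdpos m)]
    have := hd m
    nlinarith
  have hD : ‖D‖ ≤ 15 / 44 := by
    have key : ‖D‖ ≤ (15 / 44) / 2 + ‖D‖ / 2 := by
      apply ContinuousLinearMap.opNorm_le_bound _ (by positivity)
      intro x
      set K := (15 / 44) / 2 + ‖D‖ / 2 with hK
      have hK0 : 0 < K := by positivity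
      refine le_of_forall_pos_le_add (fun δ hδ => ?_)
      obtain ⟨f, rfl⟩ := cl_surj x
      obtain ⟨g, hg, hlt⟩ : ∃ g, cl g = cl f ∧ ‖g‖ < ‖cl f‖ + δ / K :=
        Submodule.Quotient.norm_mk_lt (S := c0) (cl f) (show 0 < δ / K by positivity)
      set ρ := ‖cl f‖ + δ / K with hρ
      have hρ0 : 0 < ρ := by positivity
      let ε : SF ℕ := fun n => SignType.sign (g n)
      have h1 : ‖g - (ρ / 2) • sb ε‖ ≤ ρ / 2 := by
        apply bf_norm_le (by positivity)
        intro n
        rw [bf_sub_apply, bf_smul_apply, sb_apply]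
        have h2 := (bf_abs_le g n).trans hlt.le
        rw [abs_le] at h2 ⊢
        rcases lt_trichotomy (g n) 0 with h | h | h
        · have : ε n = -1 := sign_neg h
          rw [this]
          simp
          constructor <;> linarith [h2.1, h2.2]
        · have : ε n = 0 := by
            show SignType.sign (g n) = 0
            rw [h]
            exact sign_zero
          rw [this, h]
          simp only [SignType.coe_zero, mul_zero, sub_zero]
          constructor <;> linarith [h2.1, h2.2]
        · have : ε n = 1 := sign_pos h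
          rw [this]
          simp
          constructor <;> linarith [h2.1, h2.2]
      have h2 : cl f = (ρ / 2) • cl (sb ε) + cl (g - (ρ / 2) • sb ε) := by
        rw [← hg, map_sub, map_smul]
        abel
      have h3 : ‖D (cl f)‖ ≤ (ρ / 2) * (15 / 44) + ‖D‖ * (ρ / 2) := by
        rw [h2, map_add, map_smul]
        refine (norm_add_le _ _).trans ?_
        apply add_le_add
        · rw [norm_smul, Real.norm_eq_abs, abs_of_pos (by positivity)]
          exact mul_le_mul_of_nonneg_left (hDs ε) (by positivity)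
        · refine (D.le_opNorm _).trans ?_
          exact mul_le_mul_of_nonneg_left ((cl_norm_le _).trans h1) (norm_nonneg _)
      have h4 : (ρ / 2) * (15 / 44) + ‖D‖ * (ρ / 2) = K * ρ := by
        rw [hK]
        ring
      rw [h4, hρ, mul_add] at h3
      have h5 : K * (δ / K) = δ := by
        field_simp
      rw [h5] at h3
      exact h3
    linarith
  have hD1 : ‖D‖ < 1 := by linarith
  let u := Units.oneSub D hD1
  have hu : (u : Q →L[ℝ] Q) = R ∘L T ∘L J := by
    show (1 : Q →L[ℝ] Q) - D = _
    simp only [D, sub_sub_cancel]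
  refine ⟨J, (↑u⁻¹ : Q →L[ℝ] Q) ∘L R, ?_⟩
  intro x
  have h1 : ((↑u⁻¹ : Q →L[ℝ] Q) * (u : Q →L[ℝ] Q)) x = x := by
    rw [Units.inv_mul]
    rfl
  rw [hu] at h1
  exact h1

end Pool.Agent.Helper49.OCA
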