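import Pool.Agent.Helper49.OCA.Basic

set_option autoImplicit false

open Filter Topology Set

namespace Pool.Agent.Helper49.OCA

/-- raw system on `ℕ` -/
structure Raw (F : SF ℕ → ℕ → ℝ) (C c : ℝ) : Prop where
  add : ∀ s g u : SF ℕ, (∀ j, ((u j : ℤ)) = (s j : ℤ) + (g j : ℤ)) →
    Tendsto (fun i => F u i - F s i - F g i) atTop (𝓝 0)
  fin : ∀ s : SF ℕ, {j | s j ≠ 0}.Finite → Tendsto (F s) atTop (𝓝 0)
  bdd : ∀ s : SF ℕ, ∀ᶠ i in atTop, F s i ≤ C
  low : ∀ A : Set ℕ, A.Infinite → ∃ s : SF ℕ, (∀ j, j ∉ A → s j = 0) ∧ ∃ᶠ i in atTop, c ≤ F s i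

/-- the supremum of `limsup F s` over `s` supported in `A` is at least `q` -/
def PP (F : SF ℕ → ℕ → ℝ) (q : ℝ) (A : Set ℕ) : Prop :=
  ∀ δ : ℝ, 0 < δ → ∃ s : SF ℕ, (∀ j, j ∉ A → s j = 0) ∧ ∃ᶠ i in atTop, q - δ ≤ F s i

variable {F : SF ℕ → ℕ → ℝ} {C c : ℝ}

lemma PP.mono {q : ℝ} {A B : Set ℕ} (h : PP F q A) (hAB : A ⊆ B) : PP F q B := by
  intro δ hδ
  obtain ⟨s, hs, hf⟩ := h δ hδ
  exact ⟨s, fun j hj => hs j (fun hA => hj (hAB hA)), hf⟩

lemma PP.le {q r : ℝ} {A : Set ℕ} (h : PP F q A) (hr : r ≤ q) : PP F r A := by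
  intro δ hδ
  obtain ⟨s, hs, hf⟩ := h δ hδ
  exact ⟨s, hs, hf.mono (fun i hi => by linarith)⟩

lemma PP.inter (hF : Raw F C c) {q : ℝ} {A B : Set ℕ} (h : PP F q A) (hAB : (A \ B).Finite) :
    PP F q (A ∩ B) := by
  classical
  intro δ hδ
  obtain ⟨s, hs, hf⟩ := h (δ / 2) (by linarith)
  refine ⟨rs B s, ?_, ?_⟩
  · intro j hj
    by_cases hB : j ∈ B
    · rw [rs_mem hB]
      exact hs j (fun hA => hj ⟨hA, hB⟩)
    · exact rs_nmem hB
  · have h1 := hF.add (rs B s) (rs Bᶜ s) s (by
      intro j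
      by_cases hB : j ∈ B
      · rw [rs_mem hB, rs_nmem (A := Bᶜ) (by simpa using hB)]
        simp
      · rw [rs_nmem hB, rs_mem (A := Bᶜ) (by simpa using hB)]
        simp)
    have h2 : Tendsto (F (rs Bᶜ s)) atTop (𝓝 0) := by
      apply hF.fin
      refine hAB.subset ?_
      intro j hj
      have hB : j ∉ B := by
        intro hB
        exact hj (rs_nmem (A := Bᶜ) (by simpa using hB))
      have hA : j ∈ A := by
        by_contra hA
        apply hj
        rw [rs_mem (A := Bᶜ) hB]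
        exact hs j hA
      exact ⟨hA, hB⟩
    have h3 : Tendsto (fun i => F s i - F (rs B s) i) atTop (𝓝 0) := by
      have := h1.add h2
      simp only [add_zero] at this
      refine this.congr ?_
      intro i
      ring
    have h4 : ∀ᶠ i in atTop, F s i - F (rs B s) i < δ / 2 :=
      h3.eventually (gt_mem_nhds (by linarith))
    exact (hf.and_eventually h4).mono (fun i hi => by linarith [hi.1, hi.2])

open Classical in
/-- one decision step -/
noncomputable def dstep (F : SF ℕ → ℕ → ℝ) (q : ℝ) (A : Set ℕ) : Set ℕ :=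
  if h : ∃ B ⊆ A, B.Infinite ∧ ¬ PP F q B then h.choose else A

lemma dstep_sub (q : ℝ) (A : Set ℕ) : dstep F q A ⊆ A := by
  unfold dstep
  split_ifs with h
  · exact h.choose_spec.1
  · exact Subset.rfl

lemma dstep_inf (q : ℝ) (A : Set ℕ) (hA : A.Infinite) : (dstep F q A).Infinite := by
  unfold dstep
  split_ifs with h
  · exact h.choose_spec.2.1
  · exact hA

lemma dstep_dec (q : ℝ) (A : Set ℕ) :
    ¬ PP F q (dstep F q A) ∨ ∀ B ⊆ A, B.Infinite → PP F q B := by
  unfold dstep
  split_ifs with h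
  · left; exact h.choose_spec.2.2
  · right
    push Not at h
    exact h

/-- decreasing sequence of infinite sets deciding all rationals -/
noncomputable def dseq (F : SF ℕ → ℕ → ℝ) (q : ℕ → ℚ) : ℕ → Set ℕ
  | 0 => univ
  | k + 1 => dstep F (q k : ℝ) (dseq F q k)

lemma dseq_inf (q : ℕ → ℚ) (k : ℕ) : (dseq F q k).Infinite := by
  induction k with
  | zero => exact infinite_univ
  | succ k ih => exact dstep_inf _ _ ih

lemma dseq_anti (q : ℕ → ℚ) : Antitone (dseq F q) :=
  antitone_nat_of_succ_le (fun k => dstep_sub _ _)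

theorem exists_stab (hF : Raw F C c) (hc : 0 < c) :
    ∃ γ : ℝ, 0 < γ ∧ ∃ e : ℕ → ℕ, Function.Injective e ∧
      Stab (fun (y : SF ℕ) (i : ℕ) => F (ext e y) i / γ) := by
  classical
  obtain ⟨q, hq⟩ := exists_surjective_nat ℚ
  obtain ⟨φ, hφ, hφm⟩ := Filter.extraction_forall_of_frequently
    (P := fun n k => k ∈ dseq F q n) (fun n => Nat.frequently_atTop_iff_infinite.mpr (dseq_inf q n))
  set M : Set ℕ := range φ with hM
  have hMfin : ∀ k, (M \ dseq F q k).Finite := by
    intro k
    refine ((finite_Iio k).image φ).subset ?_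
    rintro _ ⟨⟨j, rfl⟩, hj⟩
    refine ⟨j, ?_, rfl⟩
    simp only [mem_Iio]
    by_contra hjk
    push Not at hjk
    exact hj (dseq_anti q hjk (hφm j))
  have hdec : ∀ k, (¬ PP F (q k) M) ∨ ∀ A ⊆ M, A.Infinite → PP F (q k) A := by
    intro k
    rcases dstep_dec (F := F) (q k : ℝ) (dseq F q k) with h | h
    · left
      intro hP
      apply h
      exact (hP.inter hF (hMfin (k + 1))).mono inter_subset_right
    · right
      intro A hA hAi
      have h1 : (A ∩ dseq F q k).Infinite := by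
        have h2 : (A \ dseq F q k).Finite := (hMfin k).subset (diff_subset_diff_left hA)
        intro hfin
        apply hAi
        exact (hfin.union h2).subset (by
          intro x hx
          by_cases hxd : x ∈ dseq F q k
          · left; exact ⟨hx, hxd⟩
          · right; exact ⟨hx, hxd⟩)
      exact (h _ inter_subset_right h1).mono inter_subset_left
  have hMi : M.Infinite := infinite_range_of_injective hφ.injective
  set S : Set ℝ := {r | PP F r M} with hS
  have hcS : c ∈ S := by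
    intro δ hδ
    obtain ⟨s, hs, hf⟩ := hF.low M hMi
    exact ⟨s, hs, hf.mono (fun i hi => by linarith)⟩
  have hbdd : BddAbove S := by
    refine ⟨C, ?_⟩
    intro r hr
    apply le_of_forall_pos_le_add
    intro δ hδ
    obtain ⟨s, hs, hf⟩ := hr δ hδ
    obtain ⟨i, hi⟩ := (hf.and_eventually (hF.bdd s)).exists
    linarith [hi.1, hi.2]
  set γ := sSup S with hγ
  have hγc : c ≤ γ := le_csSup hbdd hcS
  have hγ0 : 0 < γ := lt_of_lt_of_le hc hγc
  refine ⟨γ, hγ0, φ, hφ.injective, ?_⟩
  have hlow : ∀ r < γ, ∀ A ⊆ M, A.Infinite →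
      ∃ s : SF ℕ, (∀ j, j ∉ A → s j = 0) ∧ ∃ᶠ i in atTop, r ≤ F s i := by
    intro r hr A hA hAi
    obtain ⟨p, hp1, hp2⟩ := exists_rat_btwn hr
    obtain ⟨k, rfl⟩ := hq p
    obtain ⟨r', hr', hr'2⟩ := exists_lt_of_lt_csSup ⟨c, hcS⟩ hp2
    have hPM : PP F (q k) M := PP.le hr' hr'2.le
    rcases hdec k with h | h
    · exact absurd hPM h
    · obtain ⟨s, hs, hf⟩ := h A hA hAi ((q k : ℝ) - r) (by linarith)
      exact ⟨s, hs, hf.mono (fun i hi => by linarith)⟩
  have hup : ∀ r, γ < r → ∀ s : SF ℕ, (∀ j, j ∉ M → s j = 0) → ∀ᶠ i in atTop, F s i < r := by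
    intro r hr s hs
    have hnot : ¬ PP F r M := by
      intro h
      have := le_csSup hbdd (show r ∈ S from h)
      linarith
    unfold PP at hnot
    push Not at hnot
    obtain ⟨δ, hδ, h⟩ := hnot
    have := h s hs
    filter_upwards [this] with i hi
    linarith
  refine ⟨?_, ?_, ?_, ?_⟩
  · intro s g u hu
    have h1 := hF.add (ext φ s) (ext φ g) (ext φ u) (by
      intro j
      by_cases hj : ∃ k, φ k = j
      · obtain ⟨k, rfl⟩ := hj
        rw [ext_apply hφ.injective, ext_apply hφ.injective, ext_apply hφ.injective]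
        exact hu k
      · rw [ext_apply' _ _ hj, ext_apply' _ _ hj, ext_apply' _ _ hj]
        simp)
    have h2 := h1.div_const γ
    rw [zero_div] at h2
    refine h2.congr ?_
    intro i
    ring
  · intro s hs
    have h1 : Tendsto (F (ext φ s)) atTop (𝓝 0) := by
      apply hF.fin
      refine (hs.image φ).subset ?_
      intro j hj
      by_cases hj' : ∃ k, φ k = j
      · obtain ⟨k, rfl⟩ := hj'
        refine ⟨k, ?_, rfl⟩
        simpa [ext_apply hφ.injective] using hj
      · exact absurd (ext_apply' _ _ hj') hj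
    have h2 := h1.div_const γ
    rwa [zero_div] at h2
  · intro r hr s
    have h1 := hup (r * γ) (by nlinarith) (ext φ s) (by
      intro j hj
      apply ext_apply'
      rintro ⟨k, rfl⟩
      exact hj ⟨k, rfl⟩)
    filter_upwards [h1] with i hi
    rwa [div_lt_iff₀ hγ0]
  · intro r hr A hA
    obtain ⟨s, hs, hf⟩ := hlow (r * γ) (by nlinarith) (φ '' A) (image_subset_range _ _)
      (hA.image hφ.injective.injOn)
    refine ⟨fun k => s (φ k), ?_, ?_⟩
    · intro k hk
      apply hs
      rintro ⟨k', hk', h2⟩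
      exact hk (hφ.injective h2 ▸ hk')
    · have : ext φ (fun k => s (φ k)) = s := by
        funext j
        by_cases hj : ∃ k, φ k = j
        · obtain ⟨k, rfl⟩ := hj
          rw [ext_apply hφ.injective]
        · rw [ext_apply' _ _ hj]
          symm
          apply hs
          rintro ⟨k, _, hk⟩
          exact hj ⟨k, hk⟩
      simp only [this]
      refine hf.mono (fun i hi => ?_)
      rwa [le_div_iff₀ hγ0]

end Pool.Agent.Helper49.OCA
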