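import Pool.Agent.Helper49.OCA.Generic

set_option autoImplicit false

open Filter Topology Set

namespace Pool.Agent.Helper49.OCA

lemma isOpen_agree (u : SF ℕ) (M : ℕ) : IsOpen {u' : SF ℕ | ∀ n < M, u' n = u n} := by
  have : {u' : SF ℕ | ∀ n < M, u' n = u n} = PiNat.cylinder u M := by
    ext u'
    rw [PiNat.mem_cylinder_iff]
    rfl
  rw [this]
  exact PiNat.isOpen_cylinder _ _ _

lemma exists_agree_of_open {U : Set (SF ℕ)} (hU : IsOpen U) {u : SF ℕ} (hu : u ∈ U) :
    ∃ M : ℕ, ∀ u' : SF ℕ, (∀ n < M, u' n = u n) → u' ∈ U := by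
  obtain ⟨v, ⟨x, n, rfl⟩, hv1, hv2⟩ :=
    (PiNat.isTopologicalBasis_cylinders (fun _ : ℕ => SignType)).exists_subset_of_mem_open hu hU
  refine ⟨n, fun u' hu' => hv2 ?_⟩
  rw [PiNat.mem_cylinder_iff] at hv1 ⊢
  intro i hi
  rw [hu' i hi]
  exact hv1 i hi

/-- the data after the choice of the branch -/
structure Sys (Lm : SF ℕ → ℕ → ℝ) (T : ℕ → SF ℕ → ℕ → ℝ) (G : Set (SF ℕ)) (η θ : ℝ) : Prop where
  hL : Stab Lm
  loc : ∀ y ∈ G, ∀ k i, ∃ m : ℕ, ∀ y' : SF ℕ, (∀ n < m, y' n = y n) → T k y' i = T k y i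
  cov : ∀ y ∈ G, ∀ t : SF ℕ, ∃ k, ∀ i, 1 - η ≤ Lm t i → |T k y i - Lm y i| ≤ θ

variable {Lm : SF ℕ → ℕ → ℝ} {T : ℕ → SF ℕ → ℕ → ℝ} {G : Set (SF ℕ)} {η θ : ℝ}

lemma split_inf {D : Set ℕ} (hD : D.Infinite) : ∃ B D1 : Set ℕ, B ⊆ D ∧ D1 ⊆ D ∧ B.Infinite ∧
    D1.Infinite ∧ Disjoint B D1 ∧ D = B ∪ D1 := by
  classical
  obtain ⟨φ, hφ, hφD⟩ := Filter.extraction_of_frequently_atTop
    (Nat.frequently_atTop_iff_infinite.mpr hD)
  have hBsub : range (fun n => φ (2 * n)) ⊆ D := by rintro _ ⟨n, rfl⟩; exact hφD _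
  refine ⟨range (fun n => φ (2 * n)), D \ range (fun n => φ (2 * n)), hBsub,
    sdiff_subset, ?_, ?_, disjoint_sdiff_right, (union_sdiff_cancel hBsub).symm⟩
  · apply infinite_range_of_injective
    intro a b h
    have := hφ.injective h
    omega
  · have h1 : (range (fun n => φ (2 * n + 1))).Infinite := by
      apply infinite_range_of_injective
      intro a b h
      have := hφ.injective h
      omega
    refine h1.mono ?_
    rintro _ ⟨n, rfl⟩
    refine ⟨hφD _, ?_⟩
    rintro ⟨m, hm⟩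
    have := hφ.injective hm
    omega

/-- changes off the support of a peak do not matter -/
lemma Stab.small_change (hL : Stab Lm) (s : SF ℕ) (D1 : Set ℕ) (hs : ∀ j ∈ D1, s j = 0) (η' : ℝ)
    (hη' : 0 < η') (R : Set ℕ) (hR : ∀ᶠ i in atTop, i ∈ R → 1 - η' ≤ Lm s i) (u y : SF ℕ)
    (hy : EqOff D1 y u) : ∀ᶠ i in atTop, i ∈ R → |Lm y i - Lm u i| ≤ 3 * η' := by
  have key : ∀ v : SF ℕ, Tendsto (fun i => Lm v i - Lm (rs D1ᶜ v) i - Lm (rs D1 v) i) atTop (𝓝 0) := by
    intro v
    apply hL.add_disj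
    intro j
    by_cases hj : j ∈ D1
    · right; exact ⟨(rs_mem hj).symm, rs_nmem (by simpa using hj)⟩
    · left; exact ⟨(rs_mem (A := D1ᶜ) hj).symm, rs_nmem hj⟩
  have hd : ∀ v : SF ℕ, ∀ᶠ i in atTop, i ∈ R → |Lm (rs D1 v) i| ≤ 5 / 4 * η' := by
    intro v
    apply hL.dom s (rs D1 v) _ η' _ (by linarith) R hR
    intro j
    by_cases hj : j ∈ D1
    · left; exact hs j hj
    · right; exact rs_nmem hj
  have he : rs D1ᶜ y = rs D1ᶜ u := by
    funext j
    by_cases hj : j ∈ D1
    · rw [rs_nmem (by simpa using hj), rs_nmem (by simpa using hj)]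
    · rw [rs_mem (A := D1ᶜ) hj, rs_mem (A := D1ᶜ) hj, hy j hj]
  have a1 : ∀ᶠ i in atTop, |Lm y i - Lm (rs D1ᶜ y) i - Lm (rs D1 y) i| < η' / 8 :=
    ((tendsto_zero_iff_abs_tendsto_zero _).mp (key y)).eventually (gt_mem_nhds (by linarith))
  have a2 : ∀ᶠ i in atTop, |Lm u i - Lm (rs D1ᶜ u) i - Lm (rs D1 u) i| < η' / 8 :=
    ((tendsto_zero_iff_abs_tendsto_zero _).mp (key u)).eventually (gt_mem_nhds (by linarith))
  filter_upwards [a1, a2, hd y, hd u] with i b1 b2 b3 b4 hi
  have b3 := b3 hi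
  have b4 := b4 hi
  rw [he] at b1
  rw [abs_lt] at b1 b2
  rw [abs_le] at b3 b4 ⊢
  constructor <;> linarith [b1.1, b1.2, b2.1, b2.2, b3.1, b3.2, b4.1, b4.2]

theorem step (S : Sys Lm T G η θ) (k : ℕ) {D : Set ℕ} (hD : D.Infinite) (b : SF ℕ)
    (hG : ∀ y : SF ℕ, EqOff D y b → y ∈ G) (η' : ℝ) (hη' : 0 < η') :
    (∃ (B : Set ℕ) (b' : SF ℕ) (R : Set ℕ) (s : SF ℕ), B.Infinite ∧ R.Infinite ∧
      (∀ y : SF ℕ, EqOff B y b' → y ∈ G) ∧ (∀ j, j ∉ B → s j = 0) ∧
      (∀ i ∈ R, 1 - 2 * η' ≤ Lm s i) ∧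
      (∀ y : SF ℕ, EqOff B y b' → ∀ᶠ i in atTop, i ∈ R → |T k y i - Lm y i| ≤ 3 * (θ + 3 * η'))) ∨
    (∃ (D' : Set ℕ) (b' : SF ℕ) (R : Set ℕ) (s : SF ℕ), D' ⊆ D ∧ D'.Infinite ∧ EqOff D b' b ∧
      (∀ j, s j ≠ 0 → j ∈ D ∧ j ∉ D') ∧ (∀ i ∈ R, 1 - η' ≤ Lm s i) ∧
      (∀ y : SF ℕ, EqOff D' y b' → ∃ᶠ i in atTop, i ∈ R ∧ θ < |T k y i - Lm y i|)) := by
  classical
  obtain ⟨B, D1, hBD, hD1D, hB, hD1, hdis, hDu⟩ := split_inf hD
  obtain ⟨s, hs, hsf⟩ := S.hL.lower (1 - η') (by linarith) B hB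
  set R : Set ℕ := {i | 1 - η' ≤ Lm s i} with hR
  have hsD1 : ∀ j ∈ D1, s j = 0 := fun j hj => hs j (fun hjB => (disjoint_left.mp hdis) hjB hj)
  have hRe : ∀ᶠ i in atTop, i ∈ R → 1 - η' ≤ Lm s i := Eventually.of_forall (fun i hi => hi)
  set θ2 := θ + 3 * η' with hθ2
  let O : SF ℕ → ℕ → Set (SF ℕ) := fun u j => {y | ∃ i ≥ j, i ∈ R ∧ θ2 < |T k y i - Lm u i|}
  by_cases hc : ∃ (u : SF ℕ) (m0 : ℕ), EqOff D u b ∧ ∀ j, RD (D1 \ Iio m0) u (O u j)
  · -- case 1
    right
    obtain ⟨u, m0, hu, hRD⟩ := hc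
    have hinf : (D1 \ Iio m0).Infinite := hD1.sdiff (finite_Iio m0)
    obtain ⟨D', b', hD'sub, hD'inf, hb', hall⟩ := generic hinf hRD
    have hsub : D1 \ Iio m0 ⊆ D := sdiff_subset.trans hD1D
    refine ⟨D', b', R, s, hD'sub.trans hsub, hD'inf, (hb'.mono hsub).trans hu, ?_,
      fun i hi => hi, ?_⟩
    · intro j hj
      have hjB : j ∈ B := by
        by_contra h
        exact hj (hs j h)
      exact ⟨hBD hjB, fun h => (disjoint_left.mp hdis) hjB (hD'sub h).1⟩
    · intro y hy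
      obtain ⟨hyu, hyO⟩ := hall y hy
      have h1 := S.hL.small_change s D1 hsD1 η' hη' R hRe u y (hyu.mono sdiff_subset)
      have h2 : ∃ᶠ i in atTop, i ∈ R ∧ θ2 < |T k y i - Lm u i| := by
        rw [frequently_atTop]
        intro j
        obtain ⟨i, hi, h⟩ := hyO j
        exact ⟨i, hi, h⟩
      refine (h2.and_eventually h1).mono ?_
      rintro i ⟨⟨hiR, h3⟩, h4⟩
      refine ⟨hiR, ?_⟩
      have h5 := h4 hiR
      have h6 : |T k y i - Lm u i| ≤ |T k y i - Lm y i| + |Lm y i - Lm u i| := abs_sub_le _ _ _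
      linarith
  · -- case 2
    left
    push Not at hc
    have h2' : ∀ (u : SF ℕ), EqOff D u b → ∀ m0 : ℕ, ∃ (j : ℕ) (y : SF ℕ) (m : ℕ),
        EqOff D1 y u ∧ (∀ n < m0, y n = u n) ∧ m0 ≤ m ∧
        ∀ y' : SF ℕ, EqOff D1 y' u → (∀ n < m, y' n = y n) → ∀ i ≥ j, i ∈ R →
          |T k y' i - Lm u i| ≤ θ2 := by
      intro u hu m0
      obtain ⟨j, hj⟩ := hc u m0 hu
      unfold RD at hj
      push Not at hj
      obtain ⟨y, hy, m, hm⟩ := hj
      refine ⟨j, y, max m m0, hy.mono sdiff_subset, ?_, le_max_right _ _, ?_⟩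
      · intro n hn
        exact hy n (fun h => h.2 hn)
      · intro y' hy' hy'2 i hi hiR
        have hy'D : EqOff D y' b := (hy'.mono hD1D).trans hu
        obtain ⟨m'', hm''⟩ := S.loc y' (hG y' hy'D) k i
        have hy'3 : EqOff (D1 \ Iio m0) y' u := by
          intro n hn
          by_cases hn0 : n < m0
          · rw [hy'2 n (lt_of_lt_of_le hn0 (le_max_right _ _))]
            exact hy n hn
          · exact hy' n (fun h => hn ⟨h, hn0⟩)
        obtain ⟨y'', h1, h2, h3⟩ := hm y' m'' hy'3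
          (fun n hn => hy'2 n (lt_of_lt_of_le hn (le_max_left _ _)))
        rw [← hm'' y'' h2]
        by_contra hlt
        push Not at hlt
        exact h3 ⟨i, hi, hiR, hlt⟩
    -- Baire
    let C : ℕ × (Σ m : ℕ, (Fin m → SignType)) → Set (SF ℕ) := fun p =>
      {u | ∀ y y' : SF ℕ, EqOff D y b → EqOff D y' b → (∀ n ∈ B, y n = u n) →
        (∀ n ∈ B, y' n = u n) → (∀ n (hn : n < p.2.1), n ∈ D1 → y n = p.2.2 ⟨n, hn⟩) →
        (∀ n (hn : n < p.2.1), n ∈ D1 → y' n = p.2.2 ⟨n, hn⟩) → ∀ i ≥ p.1, i ∈ R →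
        |T k y i - T k y' i| ≤ 2 * θ2}
    have hCcl : ∀ p, IsClosed (C p) := by
      intro p
      rw [← isOpen_compl_iff, isOpen_iff_forall_mem_open]
      intro u hu
      simp only [C, mem_compl_iff, mem_ofPred_eq] at hu
      push Not at hu
      obtain ⟨y, y', hy, hy', hyB, hy'B, hyq, hy'q, i, hi, hiR, hlt⟩ := hu
      obtain ⟨m1, hm1⟩ := S.loc y (hG y hy) k i
      obtain ⟨m2, hm2⟩ := S.loc y' (hG y' hy') k i
      refine ⟨{u' : SF ℕ | ∀ n < max m1 m2, u' n = u n}, ?_, isOpen_agree _ _, fun n _ => rfl⟩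
      intro u' hu' hmem
      have e1 := hm1 (fun n => if n ∈ B then u' n else y n) (by
        intro n hn
        by_cases hnB : n ∈ B
        · simp only [if_pos hnB]
          rw [hu' n (lt_of_lt_of_le hn (le_max_left _ _)), hyB n hnB]
        · simp only [if_neg hnB])
      have e2 := hm2 (fun n => if n ∈ B then u' n else y' n) (by
        intro n hn
        by_cases hnB : n ∈ B
        · simp only [if_pos hnB]
          rw [hu' n (lt_of_lt_of_le hn (le_max_right _ _)), hy'B n hnB]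
        · simp only [if_neg hnB])
      have hmem' := hmem (fun n => if n ∈ B then u' n else y n)
        (fun n => if n ∈ B then u' n else y' n)
        (by
          intro n hn
          have hnB : n ∉ B := fun h => hn (hBD h)
          simp only [if_neg hnB]
          exact hy n hn)
        (by
          intro n hn
          have hnB : n ∉ B := fun h => hn (hBD h)
          simp only [if_neg hnB]
          exact hy' n hn)
        (by
          intro n hn
          simp only [if_pos hn])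
        (by
          intro n hn
          simp only [if_pos hn])
        (by
          intro n hn hnD1
          have hnB : n ∉ B := fun h => (disjoint_left.mp hdis) h hnD1
          simp only [if_neg hnB]
          exact hyq n hn hnD1)
        (by
          intro n hn hnD1
          have hnB : n ∉ B := fun h => (disjoint_left.mp hdis) h hnD1
          simp only [if_neg hnB]
          exact hy'q n hn hnD1) i hi hiR
      rw [e1, e2] at hmem'
      exact absurd hmem' (not_le.mpr hlt)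
    have hCcov : (⋃ p, C p) = univ := by
      rw [eq_univ_iff_forall]
      intro u
      rw [mem_iUnion]
      let uh : SF ℕ := fun n => if n ∈ B then u n else b n
      have huh : EqOff D uh b := by
        intro n hn
        simp only [uh]
        rw [if_neg (fun h => hn (hBD h))]
      obtain ⟨j, y0, m, hy0, _, _, hall⟩ := h2' uh huh 0
      refine ⟨(j, ⟨m, fun n => y0 n⟩), ?_⟩
      intro y y' hy hy' hyB hy'B hyq hy'q i hi hiR
      have key : ∀ y : SF ℕ, EqOff D y b → (∀ n ∈ B, y n = u n) →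
          (∀ n (hn : n < m), n ∈ D1 → y n = y0 n) → |T k y i - Lm uh i| ≤ θ2 := by
        intro y hy hyB hyq
        have hyu : EqOff D1 y uh := by
          intro n hn
          simp only [uh]
          split_ifs with hnB
          · exact hyB n hnB
          · apply hy n
            rw [hDu]
            rintro (h | h)
            · exact hnB h
            · exact hn h
        apply hall y hyu _ i hi hiR
        intro n hn
        by_cases hnD1 : n ∈ D1
        · exact hyq n hn hnD1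
        · rw [hyu n hnD1, hy0 n hnD1]
      have k1 := key y hy hyB hyq
      have k2 := key y' hy' hy'B hy'q
      rw [abs_le] at k1 k2 ⊢
      constructor <;> linarith [k1.1, k1.2, k2.1, k2.2]
    obtain ⟨⟨j, q⟩, hint⟩ := nonempty_interior_of_iUnion_of_closed hCcl hCcov
    obtain ⟨u0, hu0⟩ := hint
    obtain ⟨M, hM⟩ := exists_agree_of_open isOpen_interior hu0
    have hMC : ∀ u' : SF ℕ, (∀ n < M, u' n = u0 n) → u' ∈ C (j, q) :=
      fun u' hu' => interior_subset (hM u' hu')
    let b' : SF ℕ := fun n => if n ∈ B then u0 n else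
      if h : n ∈ D1 ∧ n < q.1 then q.2 ⟨n, h.2⟩ else b n
    have hBinf : (B \ Iio M).Infinite := hB.sdiff (finite_Iio M)
    -- the restricted peak
    have hs' : ∀ᶠ i in atTop, i ∈ R → 1 - 2 * η' ≤ Lm (rs (B \ Iio M) s) i := by
      have h1 := S.hL.add_disj (rs (B \ Iio M) s) (rs (B \ Iio M)ᶜ s) s (by
        intro n
        by_cases hn : n ∈ B \ Iio M
        · left; exact ⟨(rs_mem hn).symm, rs_nmem (by simpa using hn)⟩
        · right; exact ⟨(rs_mem (A := (B \ Iio M)ᶜ) hn).symm, rs_nmem hn⟩)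
      have h2 : Tendsto (Lm (rs (B \ Iio M)ᶜ s)) atTop (𝓝 0) := by
        apply S.hL.fin
        refine (finite_Iio M).subset ?_
        intro n hn
        by_contra hnM
        apply hn
        by_cases hnB : n ∈ B
        · apply rs_nmem
          intro h
          exact h ⟨hnB, hnM⟩
        · rw [rs_mem (A := (B \ Iio M)ᶜ) (fun h => hnB h.1)]
          exact hs n hnB
      have h3 := h1.add h2
      simp only [add_zero] at h3
      have h4 : ∀ᶠ i in atTop, Lm s i - Lm (rs (B \ Iio M) s) i - Lm (rs (B \ Iio M)ᶜ s) i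
          + Lm (rs (B \ Iio M)ᶜ s) i < η' := h3.eventually (gt_mem_nhds hη')
      filter_upwards [h4] with i hi hiR
      have : 1 - η' ≤ Lm s i := hiR
      linarith
    obtain ⟨N, hN⟩ := eventually_atTop.mp hs'
    refine ⟨B \ Iio M, b', R ∩ Ici N, rs (B \ Iio M) s, hBinf, ?_, ?_, ?_, ?_, ?_⟩
    · have hRinf : R.Infinite := Nat.frequently_atTop_iff_infinite.mp hsf
      have : R ∩ Ici N = R \ Iio N := by
        ext n; simp
      rw [this]
      exact hRinf.sdiff (finite_Iio N)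
    · intro y hy
      apply hG
      intro n hn
      rw [hy n (fun h => hn (hBD h.1))]
      simp only [b']
      rw [if_neg (fun h => hn (hBD h)), dif_neg (fun h => hn (hD1D h.1))]
    · intro n hn
      exact rs_nmem hn
    · rintro i ⟨hiR, hiN⟩
      exact hN i hiN hiR
    · intro y hy
      have hyD : EqOff D y b := by
        intro n hn
        rw [hy n (fun h => hn (hBD h.1))]
        simp only [b']
        rw [if_neg (fun h => hn (hBD h)), dif_neg (fun h => hn (hD1D h.1))]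
      obtain ⟨j', y1, m1, hy1, hy1m, hmm, hall⟩ := h2' y hyD q.1
      have hbound1 : ∀ i ≥ j', i ∈ R → |T k y1 i - Lm y i| ≤ θ2 :=
        fun i hi hiR => hall y1 hy1 (fun _ _ => rfl) i hi hiR
      have hmemC := hMC (fun n => if n ∈ B then y n else u0 n) (by
        intro n hn
        by_cases hnB : n ∈ B
        · simp only [if_pos hnB]
          rw [hy n (fun h => h.2 hn)]
          simp only [b']
          rw [if_pos hnB]
        · simp only [if_neg hnB])
      have hq : ∀ n (hn : n < q.1), n ∈ D1 → y n = q.2 ⟨n, hn⟩ := by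
        intro n hn hnD1
        have hnB : n ∉ B := fun h => (disjoint_left.mp hdis) h hnD1
        rw [hy n (fun h => hnB h.1)]
        simp only [b']
        rw [if_neg hnB, dif_pos ⟨hnD1, hn⟩]
      have hbound2 : ∀ i ≥ j, i ∈ R → |T k y i - T k y1 i| ≤ 2 * θ2 := by
        intro i hi hiR
        apply hmemC y y1 hyD ((hy1.mono hD1D).trans hyD) _ _ hq _ i hi hiR
        · intro n hn
          simp only [if_pos hn]
        · intro n hn
          simp only [if_pos hn]
          exact hy1 n (fun h => (disjoint_left.mp hdis) hn h)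
        · intro n hn hnD1
          rw [hy1m n hn]
          exact hq n hn hnD1
      rw [eventually_atTop]
      refine ⟨max j j', fun i hi hiR => ?_⟩
      have c1 := hbound1 i (le_trans (le_max_right _ _) hi) hiR.1
      have c2 := hbound2 i (le_trans (le_max_left _ _) hi) hiR.1
      have : |T k y i - Lm y i| ≤ |T k y i - T k y1 i| + |T k y1 i - Lm y i| := abs_sub_le _ _ _
      linarith

end Pool.Agent.Helper49.OCA
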